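import Pool.Agent.N725.JC.Fourier
import Pool.Agent.Y951.WP.Main
import Pool.Agent.H442R2.KF.Inc

set_option autoImplicit false
set_option linter.unusedSectionVars false

/-! # The values modulo `p` of several polynomials in classes of intervals

Copy of `Pool.Agent.N725.JC.Poly` and of parts of `Mono`, `Cnt`, `Main` (there depending on
`Pool.Agent.H256R2.SC.G1`, which cannot be imported together with `Pool.Agent.H256R2.SC.Par`). -/

namespace Pool.Agent.N725.SQ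

open Finset Polynomial
open Pool.Agent.N725.JC

/-- the number of the elements of a class in an interval -/
theorem count_Ioc (a b : ℤ) (hab : a ≤ b) (q : ℕ) (hq : 0 < q) (r : ℤ) :
    |((((Ioc a b).filter (fun x => (q : ℤ) ∣ x - r)).card : ℕ) : ℝ) - ((b : ℝ) - a) / q| ≤ 1 := by
  have hq' : (0 : ℤ) < (q : ℤ) := by exact_mod_cast hq
  have h1 := Int.Ioc_filter_modEq_card a b hq' r
  have h2 : (Ioc a b).filter (fun x => (q : ℤ) ∣ x - r) =
      (Ioc a b).filter (fun x => x ≡ r [ZMOD q]) := by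
    refine filter_congr fun x _ => ?_
    rw [Int.modEq_comm, Int.modEq_iff_dvd]
  rw [h2]
  have hqQ : (0 : ℚ) < q := by exact_mod_cast hq
  have hmono : ⌊((a : ℚ) - r) / ((q : ℤ) : ℚ)⌋ ≤ ⌊((b : ℚ) - r) / ((q : ℤ) : ℚ)⌋ := by
    apply Int.floor_le_floor
    have : (a : ℚ) ≤ b := by exact_mod_cast hab
    push_cast
    gcongr
  rw [max_eq_left (by linarith)] at h1
  have h3 : ((((Ioc a b).filter (fun x => x ≡ r [ZMOD q])).card : ℕ) : ℚ) =
      ((⌊((b : ℚ) - r) / ((q : ℤ) : ℚ)⌋ - ⌊((a : ℚ) - r) / ((q : ℤ) : ℚ)⌋ : ℤ) : ℚ) := by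
    rw [← h1]
    simp
  have h4 : |((((Ioc a b).filter (fun x => x ≡ r [ZMOD q])).card : ℕ) : ℚ) -
      ((b : ℚ) - a) / q| ≤ 1 := by
    rw [h3]
    have e1 := Int.floor_le (((b : ℚ) - r) / ((q : ℤ) : ℚ))
    have e2 := Int.lt_floor_add_one (((b : ℚ) - r) / ((q : ℤ) : ℚ))
    have e3 := Int.floor_le (((a : ℚ) - r) / ((q : ℤ) : ℚ))
    have e4 := Int.lt_floor_add_one (((a : ℚ) - r) / ((q : ℤ) : ℚ))
    have e5 : ((b : ℚ) - a) / q = ((b : ℚ) - r) / ((q : ℤ) : ℚ) - ((a : ℚ) - r) / ((q : ℤ) : ℚ) := by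
      push_cast
      ring
    rw [e5, abs_le]
    push_cast
    push_cast at e1 e2 e3 e4
    constructor <;> linarith
  have h5 : ((|((((Ioc a b).filter (fun x => x ≡ r [ZMOD q])).card : ℕ) : ℚ) -
      ((b : ℚ) - a) / q| : ℚ) : ℝ) ≤ ((1 : ℚ) : ℝ) := by exact_mod_cast h4
  push_cast at h5
  exact h5

section

variable {p : ℕ} [Fact p.Prime]

/-- the residues modulo `p` of the `n ∈ (A, A + H]` with `n ≡ r (mod q)` -/
noncomputable def win (p q : ℕ) (A r : ℤ) (H : ℕ) : Finset (ZMod p) :=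
  ((Ioc A (A + H)).filter (fun n : ℤ => (q : ℤ) ∣ n - r)).image (fun n : ℤ => (n : ZMod p))

lemma mem_win {q : ℕ} {A r : ℤ} {H : ℕ} {y : ZMod p} :
    y ∈ win p q A r H ↔ ∃ n : ℤ, A < n ∧ n ≤ A + H ∧ (q : ℤ) ∣ n - r ∧ (n : ZMod p) = y := by
  unfold win
  rw [mem_image]
  constructor
  · rintro ⟨n, hn, h⟩
    rw [mem_filter, mem_Ioc] at hn
    exact ⟨n, hn.1.1, hn.1.2, hn.2, h⟩
  · rintro ⟨n, h1, h2, h3, h4⟩
    exact ⟨n, by rw [mem_filter, mem_Ioc]; exact ⟨⟨h1, h2⟩, h3⟩, h4⟩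

lemma eq_of_win {A : ℤ} {H : ℕ} (hH : H ≤ p) {n m : ℤ} (h1 : A < n) (h2 : n ≤ A + H) (h3 : A < m)
    (h4 : m ≤ A + H) (h : (n : ZMod p) = (m : ZMod p)) : n = m := by
  have h5 : (p : ℤ) ∣ n - m := by
    rw [← ZMod.intCast_zmod_eq_zero_iff_dvd]
    push_cast
    rw [h, sub_self]
  have h6 : (H : ℤ) ≤ p := by exact_mod_cast hH
  have h7 : |n - m| < p := by
    rw [abs_lt]
    constructor <;> omega
  have h8 := Int.eq_zero_of_abs_lt_dvd h5 h7
  omega

lemma card_win {q : ℕ} (hq : 1 ≤ q) {A r : ℤ} {H : ℕ} (hH : H ≤ p) :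
    |((win p q A r H).card : ℝ) - (H : ℝ) / q| ≤ 1 := by
  have h1 : (win p q A r H).card = ((Ioc A (A + H)).filter (fun n : ℤ => (q : ℤ) ∣ n - r)).card := by
    unfold win
    apply card_image_of_injOn
    intro n hn m hm h
    rw [mem_coe, mem_filter, mem_Ioc] at hn hm
    exact eq_of_win hH hn.1.1 hn.1.2 hm.1.1 hm.1.2 h
  rw [h1]
  have h2 := count_Ioc A (A + H) (by omega) q hq r
  push_cast at h2
  rwa [add_sub_cancel_left] at h2

lemma card_win_le {q : ℕ} {A r : ℤ} {H : ℕ} : (win p q A r H).card ≤ p := by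
  have := Finset.card_le_univ (win p q A r H)
  rwa [ZMod.card] at this

lemma sum_win {q : ℕ} (hq : 1 ≤ q) (hqp : q < p) {A r : ℤ} {H : ℕ} (hH : H ≤ p) :
    ∑ h : ZMod p, ‖∑ w ∈ win p q A r H, (ZMod.stdAddChar (h * w) : ℂ)‖ ≤ p * (2 + Real.log p) := by
  have hp0 : (0 : ℝ) < p := by exact_mod_cast (Fact.out : p.Prime).pos
  have hp1 : (1 : ℝ) ≤ p := by exact_mod_cast (Fact.out : p.Prime).one_lt.le
  have hlog : 0 ≤ Real.log p := Real.log_nonneg hp1
  rcases Nat.eq_zero_or_pos H with h0 | h0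
  · subst h0
    have h1 : win p q A r 0 = ∅ := by
      unfold win
      simp
    rw [h1]
    simp
    positivity
  obtain ⟨m₀, T, -, hT⟩ := Pool.Agent.H442R2.KF.Inc.prog q hq r (A + 1) (A + H) (by omega)
  have h1 : (Ioc A (A + H)).filter (fun n : ℤ => (q : ℤ) ∣ n - r) =
      (range T).image (fun k : ℕ => m₀ + q * k) := by
    rw [← hT]
    ext n
    rw [mem_filter, mem_filter, mem_Ioc, mem_Icc]
    have h2 : n ≡ r [ZMOD q] ↔ (q : ℤ) ∣ n - r := by
      rw [Int.modEq_comm]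
      exact Int.modEq_iff_dvd
    rw [h2]
    constructor
    · rintro ⟨⟨a, b⟩, c⟩
      exact ⟨⟨by omega, b⟩, c⟩
    · rintro ⟨⟨a, b⟩, c⟩
      exact ⟨⟨by omega, b⟩, c⟩
  have hinj : Set.InjOn (fun n : ℤ => (n : ZMod p))
      (((range T).image (fun k : ℕ => m₀ + (q : ℤ) * k) : Finset ℤ) : Set ℤ) := by
    intro n hn m hm h
    rw [mem_coe, ← h1, mem_filter, mem_Ioc] at hn hm
    exact eq_of_win hH hn.1.1 hn.1.2 hm.1.1 hm.1.2 h
  have hqz : (q : ℤ) ≠ 0 := by
    have : 0 < q := hq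
    exact_mod_cast this.ne'
  have hinj2 : Set.InjOn (fun k : ℕ => m₀ + (q : ℤ) * k) (range T : Set ℕ) := by
    intro a _ b _ hab
    simp only at hab
    have h2 : (q : ℤ) * a = q * b := by linarith
    exact_mod_cast mul_left_cancel₀ hqz h2
  have hTp : T ≤ p := by
    have h2 : (win p q A r H).card = T := by
      unfold win
      rw [h1, card_image_of_injOn hinj, card_image_of_injOn hinj2, card_range]
    rw [← h2]
    exact card_win_le
  have hqu : (q : ZMod p) ≠ 0 := by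
    intro h
    rw [ZMod.natCast_eq_zero_iff] at h
    exact absurd (Nat.le_of_dvd hq h) (by omega)
  have h3 : ∀ h : ZMod p, ‖∑ w ∈ win p q A r H, (ZMod.stdAddChar (h * w) : ℂ)‖ =
      ‖∑ k ∈ range T, (ZMod.stdAddChar ((h * (q : ZMod p)) * (k : ZMod p)) : ℂ)‖ := by
    intro h
    have h4 : ∑ w ∈ win p q A r H, (ZMod.stdAddChar (h * w) : ℂ) =
        ZMod.stdAddChar (h * (m₀ : ZMod p)) * ∑ k ∈ range T, (ZMod.stdAddChar ((h * (q : ZMod p)) * (k : ZMod p)) : ℂ) := by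
      unfold win
      rw [h1, sum_image hinj, sum_image hinj2, Finset.mul_sum]
      refine Finset.sum_congr rfl fun k _ => ?_
      rw [← AddChar.map_add_eq_mul]
      congr 1
      push_cast
      ring
    rw [h4, norm_mul, AddChar.norm_apply, one_mul]
  simp_rw [h3]
  have h4 : ∑ h : ZMod p, ‖∑ k ∈ range T, (ZMod.stdAddChar ((h * (q : ZMod p)) * (k : ZMod p)) : ℂ)‖ =
      ∑ h : ZMod p, ‖∑ k ∈ range T, (ZMod.stdAddChar (h * (k : ZMod p)) : ℂ)‖ :=
    Fintype.sum_equiv (Equiv.mulRight₀ (q : ZMod p) hqu) _ _ fun h => rfl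
  rw [h4]
  have h5 := Pool.Agent.H442R2.KF.Inc.sumgeom p T
  have h6 : (T : ℝ) ≤ p := by exact_mod_cast hTp
  calc _ ≤ (T : ℝ) + p * (1 + Real.log p) := h5
    _ ≤ p * (2 + Real.log p) := by linarith

/-- **the count**: members of a family with the coordinates in classes of intervals -/
theorem win_count {α : Type} (k : ℕ) (S : Finset α) (hS : S.card ≤ p) (F : Fin k → α → ZMod p)
    (E : ℝ) (hE0 : 0 ≤ E)
    (hE : ∀ h : Fin k → ZMod p, h ≠ 0 → ‖∑ x ∈ S, (ZMod.stdAddChar (∑ i, h i * F i x) : ℂ)‖ ≤ E)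
    (q : ℕ) (hq : 1 ≤ q) (hqp : q < p) (A r : Fin k → ℤ) (H : Fin k → ℕ) (hH : ∀ i, H i ≤ p) :
    |((S.filter (fun x => ∀ i, F i x ∈ win p q (A i) (r i) (H i))).card : ℝ) -
      (∏ i, (H i : ℝ)) * S.card / (p : ℝ) ^ k / (q : ℝ) ^ k| ≤ E * (2 + Real.log p) ^ k + k := by
  have hp0 : (0 : ℝ) < p := by exact_mod_cast (Fact.out : p.Prime).pos
  have hp1 : (1 : ℝ) ≤ p := by exact_mod_cast (Fact.out : p.Prime).one_lt.le
  have hq0 : (0 : ℝ) < q := by exact_mod_cast hq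
  have hq1 : (1 : ℝ) ≤ q := by exact_mod_cast hq
  have h1 := fourier_count k S F (fun i => win p q (A i) (r i) (H i)) E (p * (2 + Real.log p)) hE0 hE
    (fun i => sum_win hq hqp (hH i))
  rw [mul_div_cancel_left₀ _ hp0.ne'] at h1
  have h2 := prod_close (univ : Finset (Fin k)) (fun i => ((win p q (A i) (r i) (H i)).card : ℝ))
    (fun i => (H i : ℝ) / q) p hp1
    (fun i _ => ⟨Nat.cast_nonneg _, by exact_mod_cast card_win_le⟩)
    (fun i _ => ⟨by positivity, by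
      rw [div_le_iff₀ hq0]
      have h3 : (H i : ℝ) ≤ p := by exact_mod_cast hH i
      nlinarith⟩)
    (fun i _ => card_win hq (hH i))
  rw [card_univ, Fintype.card_fin, Finset.prod_div_distrib, Finset.prod_const, card_univ,
    Fintype.card_fin] at h2
  have hSp : (S.card : ℝ) ≤ p := by exact_mod_cast hS
  have h3 : |(∏ i, ((win p q (A i) (r i) (H i)).card : ℝ)) * S.card / (p : ℝ) ^ k -
      (∏ i, (H i : ℝ)) * S.card / (p : ℝ) ^ k / (q : ℝ) ^ k| ≤ k := by
    have e : (∏ i, ((win p q (A i) (r i) (H i)).card : ℝ)) * S.card / (p : ℝ) ^ k -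
        (∏ i, (H i : ℝ)) * S.card / (p : ℝ) ^ k / (q : ℝ) ^ k =
        (∏ i, ((win p q (A i) (r i) (H i)).card : ℝ) - (∏ i, (H i : ℝ)) / (q : ℝ) ^ k) * S.card /
          (p : ℝ) ^ k := by
      field_simp
    have hSn : |(S.card : ℝ)| = S.card := abs_of_nonneg (Nat.cast_nonneg _)
    rw [e, abs_div, abs_mul, hSn, abs_of_pos (pow_pos hp0 k), div_le_iff₀ (pow_pos hp0 k)]
    exact (mul_le_mul_of_nonneg_left hSp (abs_nonneg _)).trans h2
  calc _ = |(((S.filter (fun x => ∀ i, F i x ∈ win p q (A i) (r i) (H i))).card : ℝ) -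
        (∏ i, ((win p q (A i) (r i) (H i)).card : ℝ)) * S.card / (p : ℝ) ^ k) +
        ((∏ i, ((win p q (A i) (r i) (H i)).card : ℝ)) * S.card / (p : ℝ) ^ k -
        (∏ i, (H i : ℝ)) * S.card / (p : ℝ) ^ k / (q : ℝ) ^ k)| := by
        congr 1
        ring
    _ ≤ _ := (abs_add_le _ _).trans (add_le_add h1 h3)

/-- Weil's bound for the combinations of several polynomials -/
theorem poly_sum (k D : ℕ) (f : Fin k → (ZMod p)[X]) (hD : ∀ i, (f i).natDegree ≤ D) (hDp : D < p)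
    (hf : ∀ h : Fin k → ZMod p, h ≠ 0 → 1 ≤ (∑ i, C (h i) * f i).natDegree)
    (h : Fin k → ZMod p) (hh : h ≠ 0) :
    ‖∑ x : ZMod p, (ZMod.stdAddChar (∑ i, h i * (f i).eval x) : ℂ)‖ ≤ D * Real.sqrt p := by
  have h1 := hf h hh
  have h2 : (∑ i, C (h i) * f i).natDegree ≤ D :=
    natDegree_sum_le_of_forall_le _ _ fun i _ => (natDegree_C_mul_le _ _).trans (hD i)
  have h3 := Pool.Agent.Y951.WP.weil_le p (∑ i, C (h i) * f i) (by
    intro hd
    exact absurd (Nat.le_of_dvd h1 hd) (by omega)) (ZMod.isPrimitive_stdAddChar p)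
  have h4 : ∀ x : ZMod p, (∑ i, C (h i) * f i).eval x = ∑ i, h i * (f i).eval x := by
    intro x
    rw [eval_finsetSum]
    refine Finset.sum_congr rfl fun i _ => ?_
    rw [eval_mul, eval_C]
  simp_rw [h4] at h3
  refine h3.trans ?_
  refine mul_le_mul_of_nonneg_right ?_ (Real.sqrt_nonneg _)
  exact_mod_cast (by omega : (∑ i, C (h i) * f i).natDegree - 1 ≤ D)

end


open scoped Classical

/-- A finite family of integer vectors is well distributed modulo the numbers up to `Z`. -/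
def Fam (d Z : ℕ) {α : Type} (s : Finset α) (v : α → Fin d → ℤ) : Prop :=
  s.Nonempty ∧ ∀ q : ℕ, 1 ≤ q → q ≤ Z → ∀ r : Fin d → ℤ,
    |((s.filter (fun x => ∀ j, (q : ℤ) ∣ v x j - r j)).card : ℝ) - s.card / (q : ℝ) ^ d| ≤
      s.card / (Z : ℝ) ^ (d + 1)


/-- If every well distributed subfamily has a good member, then many members are good. -/
theorem fam_count {d Z : ℕ} {α : Type} (s : Finset α) (w : α → Fin d → ℤ) (hZ : 6 ≤ Z) (hs : s.Nonempty)
    (h : ∀ q : ℕ, 1 ≤ q → q ≤ Z → ∀ r : Fin d → ℤ,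
      |((s.filter (fun x => ∀ j, (q : ℤ) ∣ w x j - r j)).card : ℝ) - s.card / (q : ℝ) ^ d| ≤
        s.card / (Z : ℝ) ^ (d + 2))
    (good : α → Prop) (hg : ∀ t : Finset α, Fam d Z t w → ∃ a ∈ t, good a) :
    (s.card : ℝ) / (Z : ℝ) ^ (d + 2) ≤ ((s.filter good).card : ℝ) := by
  by_contra hcon
  push Not at hcon
  have hZ6 : (6 : ℝ) ≤ Z := by exact_mod_cast hZ
  have hZ1 : (1 : ℝ) ≤ Z := by linarith
  have hZ0 : (0 : ℝ) < Z := by linarith
  have hsc : (0 : ℝ) < s.card := by exact_mod_cast hs.card_pos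
  obtain ⟨t, ht⟩ : ∃ t : Finset α, t = s.filter (fun x => ¬ good x) := ⟨_, rfl⟩
  obtain ⟨G, hG⟩ : ∃ G : Finset α, G = s.filter good := ⟨_, rfl⟩
  rw [← hG] at hcon
  have hcard : (G.card : ℝ) + t.card = s.card := by
    have := Finset.card_filter_add_card_filter_not (s := s) good
    rw [ht, hG]
    exact_mod_cast this
  have hZd : (1 : ℝ) ≤ (Z : ℝ) ^ (d + 1) := one_le_pow₀ hZ1
  have hpow : (Z : ℝ) ^ (d + 2) = (Z : ℝ) ^ (d + 1) * Z := by rw [pow_succ]
  obtain ⟨y, hy⟩ : ∃ y : ℝ, y = s.card / (Z : ℝ) ^ (d + 2) := ⟨_, rfl⟩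
  have hy0 : 0 < y := by rw [hy]; positivity
  have hys : y * 6 ≤ s.card := by
    rw [hy, div_mul_eq_mul_div, div_le_iff₀ (by positivity), hpow]
    have : (6 : ℝ) ≤ (Z : ℝ) ^ (d + 1) * Z := by nlinarith
    nlinarith
  have htc : (s.card : ℝ) / 2 ≤ t.card := by linarith
  have hfam : Fam d Z t w := by
    refine ⟨?_, ?_⟩
    · rw [← Finset.card_pos]
      have : (0 : ℝ) < t.card := by linarith
      exact_mod_cast this
    intro q hq hqZ r
    have h1 := h q hq hqZ r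
    have hq1 : (1 : ℝ) ≤ q := by exact_mod_cast hq
    have hqd : (1 : ℝ) ≤ (q : ℝ) ^ d := one_le_pow₀ hq1
    have h2 : ((t.filter (fun x => ∀ j, (q : ℤ) ∣ w x j - r j)).card : ℝ) +
        ((G.filter (fun x => ∀ j, (q : ℤ) ∣ w x j - r j)).card : ℝ) =
        ((s.filter (fun x => ∀ j, (q : ℤ) ∣ w x j - r j)).card : ℝ) := by
      have h3 := Finset.card_filter_add_card_filter_not
        (s := s.filter (fun x => ∀ j, (q : ℤ) ∣ w x j - r j)) good
      rw [Finset.filter_filter, Finset.filter_filter] at h3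
      have e1 : G.filter (fun x => ∀ j, (q : ℤ) ∣ w x j - r j) =
          s.filter (fun x => (∀ j, (q : ℤ) ∣ w x j - r j) ∧ good x) := by
        rw [hG, Finset.filter_filter]
        exact Finset.filter_congr fun x _ => and_comm
      have e2 : t.filter (fun x => ∀ j, (q : ℤ) ∣ w x j - r j) =
          s.filter (fun x => (∀ j, (q : ℤ) ∣ w x j - r j) ∧ ¬ good x) := by
        rw [ht, Finset.filter_filter]
        exact Finset.filter_congr fun x _ => and_comm
      rw [e1, e2, add_comm]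
      exact_mod_cast h3
    have h3 : ((G.filter (fun x => ∀ j, (q : ℤ) ∣ w x j - r j)).card : ℝ) ≤ G.card := by
      exact_mod_cast Finset.card_filter_le _ _
    have h3' : (0 : ℝ) ≤ ((G.filter (fun x => ∀ j, (q : ℤ) ∣ w x j - r j)).card : ℝ) :=
      Nat.cast_nonneg _
    have h4 : (s.card : ℝ) / (q : ℝ) ^ d - t.card / (q : ℝ) ^ d = G.card / (q : ℝ) ^ d := by
      rw [← sub_div, ← hcard]
      congr 1
      ring
    have h5 : (G.card : ℝ) / (q : ℝ) ^ d ≤ G.card := div_le_self (Nat.cast_nonneg _) hqd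
    have h5' : (0 : ℝ) ≤ (G.card : ℝ) / (q : ℝ) ^ d := by positivity
    rw [← hy] at h1 hcon
    have h6 : |((t.filter (fun x => ∀ j, (q : ℤ) ∣ w x j - r j)).card : ℝ) - t.card / (q : ℝ) ^ d| ≤
        3 * y := by
      rw [abs_le] at h1 ⊢
      constructor <;> linarith [h1.1, h1.2]
    refine h6.trans ?_
    rw [le_div_iff₀ (by positivity), hy, hpow]
    calc 3 * ((s.card : ℝ) / ((Z : ℝ) ^ (d + 1) * Z)) * (Z : ℝ) ^ (d + 1)
        = 3 * s.card / Z := by
          field_simp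
      _ ≤ s.card / 2 := by
          rw [div_le_div_iff₀ hZ0 (by norm_num)]
          nlinarith
      _ ≤ t.card := htc
  obtain ⟨a, ha, hga⟩ := hg t hfam
  rw [ht, mem_filter] at ha
  exact ha.2 hga


/-- the representative in `(A, A + H]` of a residue modulo `p` -/
noncomputable def rep {p : ℕ} (A : ℤ) (H : ℕ) (y : ZMod p) : ℤ :=
  if h : ∃ n : ℤ, A < n ∧ n ≤ A + H ∧ (n : ZMod p) = y then h.choose else 0

lemma rep_spec {p : ℕ} {A : ℤ} {H : ℕ} {y : ZMod p} (h : ∃ n : ℤ, A < n ∧ n ≤ A + H ∧ (n : ZMod p) = y) :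
    A < rep A H y ∧ rep A H y ≤ A + H ∧ ((rep A H y : ℤ) : ZMod p) = y := by
  unfold rep
  rw [dif_pos h]
  exact h.choose_spec


end Pool.Agent.N725.SQ
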