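import Pool.Agent.N725.SQ.Base

set_option autoImplicit false
set_option linter.unusedSectionVars false

/-! # Vectors of residues with small exponential sums, and bilinear sums over arbitrary sets

Copy of parts of `Pool.Agent.N389.CI.Resid`, `CI.Four`, `BI.Bil` (helper389), with an arbitrary property of
the vectors, over `Pool.Agent.N725.SQ.Base`. -/

namespace Pool.Agent.N725.SQ

open Finset Filter
open Pool.Agent.N725.JC

/-- products of relatively close numbers -/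
lemma prod_rel {ι : Type} (s : Finset ι) (a b : ι → ℝ) (η : ℝ) (hη0 : 0 ≤ η) (hη1 : η ≤ 1)
    (ha : ∀ i ∈ s, 0 ≤ a i) (hb : ∀ i ∈ s, 0 ≤ b i) (hab : ∀ i ∈ s, |a i - b i| ≤ η * b i) :
    |∏ i ∈ s, a i - ∏ i ∈ s, b i| ≤ ((2 : ℝ) ^ s.card - 1) * η * ∏ i ∈ s, b i := by
  classical
  induction s using Finset.induction_on with
  | empty => simp
  | insert j s hj ih =>
    rw [Finset.prod_insert hj, Finset.prod_insert hj, Finset.card_insert_of_notMem hj]
    have ih' := ih (fun i hi => ha i (mem_insert_of_mem hi)) (fun i hi => hb i (mem_insert_of_mem hi))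
      (fun i hi => hab i (mem_insert_of_mem hi))
    have hP0 : 0 ≤ ∏ i ∈ s, b i := Finset.prod_nonneg fun i hi => hb i (mem_insert_of_mem hi)
    have hbj := hb j (mem_insert_self _ _)
    have haj := ha j (mem_insert_self _ _)
    have habj := hab j (mem_insert_self _ _)
    have haj2 : a j ≤ (1 + η) * b j := by
      have := (abs_le.1 habj).2
      linarith
    have h4 : (0 : ℝ) ≤ (2 : ℝ) ^ s.card - 1 := by
      have : (1 : ℝ) ≤ (2 : ℝ) ^ s.card := one_le_pow₀ (by norm_num)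
      linarith
    have e : a j * ∏ i ∈ s, a i - b j * ∏ i ∈ s, b i =
        a j * (∏ i ∈ s, a i - ∏ i ∈ s, b i) + (a j - b j) * ∏ i ∈ s, b i := by ring
    rw [e]
    refine (abs_add_le _ _).trans ?_
    rw [abs_mul, abs_mul, abs_of_nonneg haj, abs_of_nonneg hP0]
    have h1 : a j * |∏ i ∈ s, a i - ∏ i ∈ s, b i| ≤
        ((1 + η) * b j) * (((2 : ℝ) ^ s.card - 1) * η * ∏ i ∈ s, b i) :=
      mul_le_mul haj2 ih' (abs_nonneg _) (by positivity)
    have h2 : |a j - b j| * ∏ i ∈ s, b i ≤ η * b j * ∏ i ∈ s, b i :=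
      mul_le_mul_of_nonneg_right habj hP0
    have h3 : 0 ≤ b j * (η * ∏ i ∈ s, b i) := by positivity
    have h5 : (1 + η) * b j * (((2 : ℝ) ^ s.card - 1) * η * ∏ i ∈ s, b i) + η * b j * ∏ i ∈ s, b i ≤
        ((2 : ℝ) ^ (s.card + 1) - 1) * η * (b j * ∏ i ∈ s, b i) := by
      rw [pow_succ]
      have h6 : (1 + η) * b j * (((2 : ℝ) ^ s.card - 1) * η * ∏ i ∈ s, b i) +
          η * b j * ∏ i ∈ s, b i =
          (b j * (η * ∏ i ∈ s, b i)) * ((1 + η) * ((2 : ℝ) ^ s.card - 1) + 1) := by ring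
      have h7 : ((2 : ℝ) ^ s.card * 2 - 1) * η * (b j * ∏ i ∈ s, b i) =
          (b j * (η * ∏ i ∈ s, b i)) * (2 * ((2 : ℝ) ^ s.card - 1) + 1) := by ring
      rw [h6, h7]
      apply mul_le_mul_of_nonneg_left _ h3
      nlinarith
    linarith

section

variable {p : ℕ} [Fact p.Prime]

/-- **the count**: members of a family with the coordinates in classes of intervals -/
theorem win_count2 {α : Type} (k : ℕ) (S : Finset α) (F : Fin k → α → ZMod p)
    (E : ℝ) (hE0 : 0 ≤ E)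
    (hE : ∀ h : Fin k → ZMod p, h ≠ 0 → ‖∑ x ∈ S, (ZMod.stdAddChar (∑ i, h i * F i x) : ℂ)‖ ≤ E)
    (q : ℕ) (hq : 1 ≤ q) (hqp : q < p) (A r : Fin k → ℤ) (H : Fin k → ℕ) (hH : ∀ i, H i ≤ p)
    (B : ℝ) (hqB : (q : ℝ) ≤ B) (hB : ∀ i, B ≤ H i) :
    |((S.filter (fun x => ∀ i, F i x ∈ win p q (A i) (r i) (H i))).card : ℝ) -
      (∏ i, (H i : ℝ)) * S.card / (p : ℝ) ^ k / (q : ℝ) ^ k| ≤ E * (2 + Real.log p) ^ k +
        (2 : ℝ) ^ k * (q / B) * ((∏ i, (H i : ℝ)) * S.card / (p : ℝ) ^ k / (q : ℝ) ^ k) := by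
  classical
  have hp0 : (0 : ℝ) < p := by exact_mod_cast (Fact.out : p.Prime).pos
  have hp1 : (1 : ℝ) ≤ p := by exact_mod_cast (Fact.out : p.Prime).one_lt.le
  have hq0 : (0 : ℝ) < q := by exact_mod_cast hq
  have hq1 : (1 : ℝ) ≤ q := by exact_mod_cast hq
  have hB0 : 0 < B := by linarith
  have h1 := fourier_count k S F (fun i => win p q (A i) (r i) (H i)) E (p * (2 + Real.log p)) hE0 hE
    (fun i => sum_win hq hqp (hH i))
  rw [mul_div_cancel_left₀ _ hp0.ne'] at h1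
  have h2 := prod_rel (univ : Finset (Fin k)) (fun i => ((win p q (A i) (r i) (H i)).card : ℝ))
    (fun i => (H i : ℝ) / q) (q / B) (by positivity) (by rw [div_le_one hB0]; exact hqB)
    (fun i _ => Nat.cast_nonneg _)
    (fun i _ => by positivity)
    (fun i _ => (card_win hq (hH i)).trans (by
      have h3 := hB i
      have e : (q : ℝ) / B * ((H i : ℝ) / q) = H i / B := by field_simp
      rw [e, le_div_iff₀ hB0, one_mul]
      exact h3))
  rw [card_univ, Fintype.card_fin, Finset.prod_div_distrib, Finset.prod_const, card_univ,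
    Fintype.card_fin] at h2
  have hPr0 : 0 ≤ ∏ i, (H i : ℝ) := Finset.prod_nonneg fun i _ => Nat.cast_nonneg _
  have h3 : |(∏ i, ((win p q (A i) (r i) (H i)).card : ℝ)) * S.card / (p : ℝ) ^ k -
      (∏ i, (H i : ℝ)) * S.card / (p : ℝ) ^ k / (q : ℝ) ^ k| ≤
        (2 : ℝ) ^ k * (q / B) * ((∏ i, (H i : ℝ)) * S.card / (p : ℝ) ^ k / (q : ℝ) ^ k) := by
    have e : (∏ i, ((win p q (A i) (r i) (H i)).card : ℝ)) * S.card / (p : ℝ) ^ k -
        (∏ i, (H i : ℝ)) * S.card / (p : ℝ) ^ k / (q : ℝ) ^ k =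
        (∏ i, ((win p q (A i) (r i) (H i)).card : ℝ) - (∏ i, (H i : ℝ)) / (q : ℝ) ^ k) * S.card /
          (p : ℝ) ^ k := by
      field_simp
    have hSn : |(S.card : ℝ)| = S.card := abs_of_nonneg (Nat.cast_nonneg _)
    rw [e, abs_div, abs_mul, hSn, abs_of_pos (pow_pos hp0 k)]
    have e2 : (2 : ℝ) ^ k * (q / B) * ((∏ i, (H i : ℝ)) * S.card / (p : ℝ) ^ k / (q : ℝ) ^ k) =
        (2 : ℝ) ^ k * (q / B) * ((∏ i, (H i : ℝ)) / (q : ℝ) ^ k) * S.card / (p : ℝ) ^ k := by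
      field_simp
    rw [e2]
    apply div_le_div_of_nonneg_right _ (pow_pos hp0 k).le
    apply mul_le_mul_of_nonneg_right _ (Nat.cast_nonneg _)
    refine h2.trans ?_
    apply mul_le_mul_of_nonneg_right _ (by positivity)
    apply mul_le_mul_of_nonneg_right _ (by positivity)
    linarith
  calc _ = |(((S.filter (fun x => ∀ i, F i x ∈ win p q (A i) (r i) (H i))).card : ℝ) -
        (∏ i, ((win p q (A i) (r i) (H i)).card : ℝ)) * S.card / (p : ℝ) ^ k) +
        ((∏ i, ((win p q (A i) (r i) (H i)).card : ℝ)) * S.card / (p : ℝ) ^ k -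
        (∏ i, (H i : ℝ)) * S.card / (p : ℝ) ^ k / (q : ℝ) ^ k)| := by
        congr 1
        ring
    _ ≤ _ := (abs_add_le _ _).trans (add_le_add h1 h3)

end

open scoped Classical in
/-- **Vectors of residues with small exponential sums**, an arbitrary property of the vectors. -/
theorem resid2_gen (k : ℕ) (δ : ℝ) (hδ : 0 < δ) (hδ1 : δ ≤ 1) :
    ∀ᶠ p : ℕ in atTop,
    ∀ [Fact p.Prime], ∀ (α : Type) (S : Finset α) (F : Fin k → α → ZMod p) (A : Fin k → ℤ) (H : Fin k → ℕ)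
    (E₀ : ℝ) (_ : 0 ≤ E₀) (_ : S.Nonempty)
    (_ : ∀ h : Fin k → ZMod p, h ≠ 0 → ‖∑ x ∈ S, (ZMod.stdAddChar (∑ i, h i * F i x) : ℂ)‖ ≤ E₀)
    (_ : ∀ i, (p : ℝ) ^ δ ≤ H i ∧ H i ≤ p)
    (_ : E₀ * (p : ℝ) ^ δ ≤ (∏ i, (H i : ℝ)) * S.card / (p : ℝ) ^ k)
    (good : (Fin k → ℤ) → Prop)
    (_ : ∀ t : Finset α, Fam k ⌊(p : ℝ) ^ (δ / (4 * (k + 2)))⌋₊ t (fun x i => rep (A i) (H i) (F i x)) →
      ∃ a ∈ t, good (fun i => rep (A i) (H i) (F i a))),
    (∏ i, (H i : ℝ)) * S.card / (p : ℝ) ^ k * (p : ℝ) ^ (-δ) ≤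
      ((S.filter (fun x => (∀ i, A i < rep (A i) (H i) (F i x) ∧ rep (A i) (H i) (F i x) ≤ A i + H i ∧
          ((rep (A i) (H i) (F i x) : ℤ) : ZMod p) = F i x) ∧
        good (fun i => rep (A i) (H i) (F i x)))).card : ℝ) := by
  obtain ⟨η, hη⟩ : ∃ η : ℝ, η = δ / (4 * (k + 2)) := ⟨_, rfl⟩
  rw [← hη]
  have hk2 : (0 : ℝ) < 4 * (k + 2) := by positivity
  have hη0 : 0 < η := by rw [hη]; positivity
  have hηk : η * (k + 2) = δ / 4 := by rw [hη]; field_simp
  have hη1 : η ≤ 1 / 8 := by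
    rw [hη, div_le_iff₀ hk2]
    have : (0 : ℝ) ≤ k := Nat.cast_nonneg k
    linarith
  -- the large parameters
  have hT : Tendsto (fun p : ℕ => (p : ℝ)) atTop atTop := tendsto_natCast_atTop_atTop
  have e1 : ∀ᶠ x : ℝ in atTop, (2 + Real.log x) ^ k + (2 : ℝ) ^ k ≤ x ^ (δ / 4) := by
    have h1 : (fun x : ℝ => (2 + Real.log x) ^ (k + 1)) =o[atTop] fun x : ℝ => x ^ (δ / 4) := by
      have h2 : (fun x : ℝ => (2 + Real.log x)) =O[atTop] Real.log := by
        have h3 : (fun _ : ℝ => (2 : ℝ)) =O[atTop] Real.log :=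
          (Real.isLittleO_const_log_atTop (c := 2)).isBigO
        exact h3.add (Asymptotics.isBigO_refl _ _)
      have h4 : (fun x : ℝ => Real.log x ^ (k + 1)) =o[atTop] fun x : ℝ => x ^ (δ / 4) := by
        have h5 := isLittleO_log_rpow_rpow_atTop (s := δ / 4) ((k : ℝ) + 1) (by positivity)
        refine h5.congr' ?_ (Filter.EventuallyEq.refl _ _)
        filter_upwards with x
        have : ((k : ℝ) + 1) = ((k + 1 : ℕ) : ℝ) := by push_cast; ring
        rw [this, Real.rpow_natCast]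
      exact (h2.pow (k + 1)).trans_isLittleO h4
    have h6 := h1.def (show (0 : ℝ) < 1 / 2 by positivity)
    filter_upwards [h6, eventually_ge_atTop (1 : ℝ)] with x hx hx1
    have hl := Real.log_nonneg hx1
    rw [Real.norm_of_nonneg (by positivity), Real.norm_of_nonneg (by positivity)] at hx
    have h7 : (2 + Real.log x) ^ k ≤ (2 + Real.log x) ^ (k + 1) :=
      pow_le_pow_right₀ (by linarith) (Nat.le_succ k)
    have h8 : (2 : ℝ) ^ k ≤ (2 + Real.log x) ^ k := pow_le_pow_left₀ (by norm_num) (by linarith) k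
    linarith
  have e2 : ∀ᶠ x : ℝ in atTop, 8 ≤ x ^ (δ / 4) :=
    (tendsto_rpow_atTop (by positivity)).eventually_ge_atTop 8
  have e3 : ∀ᶠ x : ℝ in atTop, (8 : ℝ) ≤ x ^ (η / 2) :=
    (tendsto_rpow_atTop (by positivity)).eventually_ge_atTop _
  filter_upwards [hT.eventually e1, hT.eventually e2, hT.eventually e3,
    eventually_ge_atTop 2] with p hp1 hp2 hp3 hp5
  intro hpF α S F A H E₀ hE₀ hS hE hH' hV good hgood
  have hH : ∀ i, H i ≤ p := fun i => (hH' i).2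
  have hp : p.Prime := hpF.out
  have hpr1 : (1 : ℝ) < p := by exact_mod_cast hp.one_lt
  have hpr0 : (0 : ℝ) < p := by linarith
  have hSc : (0 : ℝ) < S.card := by exact_mod_cast hS.card_pos
  obtain ⟨V, hVdef⟩ : ∃ V : ℝ, V = (∏ i, (H i : ℝ)) * S.card / (p : ℝ) ^ k := ⟨_, rfl⟩
  rw [← hVdef]
  -- the modulus scale
  obtain ⟨Z, hZ⟩ : ∃ Z : ℕ, Z = ⌊(p : ℝ) ^ η⌋₊ := ⟨_, rfl⟩
  rw [← hZ] at hgood
  have hpη : 0 < (p : ℝ) ^ η := Real.rpow_pos_of_pos hpr0 _
  have hZle : (Z : ℝ) ≤ (p : ℝ) ^ η := by rw [hZ]; exact Nat.floor_le hpη.le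
  have hhalf : (p : ℝ) ^ (η / 2) * (p : ℝ) ^ (η / 2) = (p : ℝ) ^ η := by
    rw [← Real.rpow_add hpr0]; congr 1; ring
  obtain ⟨y, hy⟩ : ∃ y : ℝ, y = (p : ℝ) ^ (η / 2) := ⟨_, rfl⟩
  rw [← hy] at hp3 hhalf
  have hyZ : y ≤ Z := by
    have h1 : (p : ℝ) ^ η < Z + 1 := by rw [hZ]; exact Nat.lt_floor_add_one _
    rw [← hhalf] at h1
    nlinarith
  have hZ7 : (7 : ℝ) ≤ Z := by linarith
  have hZ6 : 6 ≤ Z := by
    have : (6 : ℝ) ≤ Z := by linarith
    exact_mod_cast this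
  have hZp : (Z : ℝ) < p := by
    refine hZle.trans_lt ?_
    calc (p : ℝ) ^ η < (p : ℝ) ^ (1 : ℝ) := Real.rpow_lt_rpow_of_exponent_lt hpr1 (by linarith)
      _ = p := Real.rpow_one _
  -- the family
  obtain ⟨s, hs⟩ : ∃ s : Finset α, s = S.filter (fun x => ∀ i, F i x ∈ win p 1 (A i) 0 (H i)) := ⟨_, rfl⟩
  obtain ⟨w, hw⟩ : ∃ w : α → Fin k → ℤ, w = fun x i => rep (A i) (H i) (F i x) := ⟨_, rfl⟩
  have hws : ∀ x ∈ s, ∀ i, A i < w x i ∧ w x i ≤ A i + H i ∧ ((w x i : ℤ) : ZMod p) = F i x := by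
    intro x hx i
    rw [hs, mem_filter] at hx
    obtain ⟨n, h1, h2, -, h4⟩ := mem_win.1 (hx.2 i)
    rw [hw]
    exact rep_spec ⟨n, h1, h2, h4⟩
  have hclass : ∀ q : ℕ, ∀ r : Fin k → ℤ, s.filter (fun x => ∀ j, (q : ℤ) ∣ w x j - r j) =
      S.filter (fun x => ∀ i, F i x ∈ win p q (A i) (r i) (H i)) := by
    intro q r
    ext x
    rw [mem_filter, mem_filter]
    constructor
    · rintro ⟨h1, h2⟩
      have h3 := hws x h1
      rw [hs, mem_filter] at h1
      refine ⟨h1.1, fun i => mem_win.2 ⟨w x i, (h3 i).1, (h3 i).2.1, h2 i, (h3 i).2.2⟩⟩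
    · rintro ⟨h1, h2⟩
      have h3 : x ∈ s := by
        rw [hs, mem_filter]
        refine ⟨h1, fun i => ?_⟩
        obtain ⟨n, a1, a2, a3, a4⟩ := mem_win.1 (h2 i)
        exact mem_win.2 ⟨n, a1, a2, by simp, a4⟩
      refine ⟨h3, fun i => ?_⟩
      obtain ⟨n, a1, a2, a3, a4⟩ := mem_win.1 (h2 i)
      obtain ⟨b1, b2, b3⟩ := hws x h3 i
      have h4 : w x i = n := eq_of_win (hH i) b1 b2 a1 a2 (by rw [b3, a4])
      rw [h4]
      exact a3
  have hlog : 0 ≤ Real.log p := Real.log_nonneg hpr1.le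
  obtain ⟨g, hg⟩ : ∃ g : ℝ, g = (p : ℝ) ^ (δ / 4) := ⟨_, rfl⟩
  have hg8 : 8 ≤ g := by rw [hg]; exact hp2
  have hg1 : 1 ≤ g := by linarith
  have hg0 : 0 < g := by linarith
  rw [← hg] at hp1
  have hg4 : (p : ℝ) ^ δ = g ^ 4 := by
    rw [hg, ← Real.rpow_natCast, ← Real.rpow_mul hpr0.le]
    congr 1
    push_cast
    ring
  have hZk : (Z : ℝ) ^ (k + 2) ≤ g := by
    calc (Z : ℝ) ^ (k + 2) ≤ ((p : ℝ) ^ η) ^ (k + 2) :=
          pow_le_pow_left₀ (Nat.cast_nonneg _) hZle _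
      _ = g := by
          rw [hg, ← Real.rpow_natCast, ← Real.rpow_mul hpr0.le]
          congr 1
          push_cast
          exact hηk
  have hZg : (Z : ℝ) ≤ g := by
    refine le_trans ?_ hZk
    calc (Z : ℝ) = (Z : ℝ) ^ 1 := (pow_one _).symm
      _ ≤ (Z : ℝ) ^ (k + 2) := pow_le_pow_right₀ (by linarith) (by omega)
  have hPr0 : 0 ≤ ∏ i, (H i : ℝ) := Finset.prod_nonneg fun i _ => Nat.cast_nonneg _
  have hVpos : 0 < V := by
    have h1 : 0 < ∏ i, (H i : ℝ) := Finset.prod_pos fun i _ =>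
      lt_of_lt_of_le (Real.rpow_pos_of_pos hpr0 _) (hH' i).1
    rw [hVdef]
    positivity
  have hVlow : E₀ * g ^ 4 ≤ V := by
    rw [hVdef, ← hg4]
    exact hV
  obtain ⟨T, hTdef⟩ : ∃ T : ℝ, T = V / g ^ 2 := ⟨_, rfl⟩
  have hTg : T * g ^ 2 = V := by rw [hTdef]; field_simp
  have hT0 : 0 < T := by rw [hTdef]; positivity
  have hcount : ∀ q : ℕ, 1 ≤ q → q ≤ Z → ∀ r : Fin k → ℤ,
      |((S.filter (fun x => ∀ i, F i x ∈ win p q (A i) (r i) (H i))).card : ℝ) - V / (q : ℝ) ^ k| ≤ T := by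
    intro q hq hqZ r
    have hqZR : (q : ℝ) ≤ Z := by exact_mod_cast hqZ
    have hqp : q < p := by
      have : (q : ℝ) < p := by linarith
      exact_mod_cast this
    have hq1 : (1 : ℝ) ≤ q := by exact_mod_cast hq
    have h1 := win_count2 k S F _ hE₀ hE q hq hqp A r H hH ((p : ℝ) ^ δ)
      (by
        rw [hg4]
        have : g ≤ g ^ 4 := by
          calc g = g ^ 1 := (pow_one g).symm
            _ ≤ g ^ 4 := pow_le_pow_right₀ hg1 (by norm_num)
        linarith)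
      (fun i => (hH' i).1)
    rw [← hVdef] at h1
    refine h1.trans ?_
    have hqk : (1 : ℝ) ≤ (q : ℝ) ^ k := one_le_pow₀ hq1
    have h2 : E₀ ≤ V / g ^ 4 := by
      rw [le_div_iff₀ (by positivity)]
      exact hVlow
    have h3 : V / (q : ℝ) ^ k ≤ V := div_le_self hVpos.le hqk
    have h4 : (q : ℝ) / (p : ℝ) ^ δ ≤ g / g ^ 4 := by
      rw [hg4]
      apply div_le_div_of_nonneg_right _ (by positivity)
      linarith
    have h5 : 0 ≤ (2 + Real.log p) ^ k := by positivity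
    calc E₀ * (2 + Real.log p) ^ k +
          (2 : ℝ) ^ k * (q / (p : ℝ) ^ δ) * (V / (q : ℝ) ^ k)
        ≤ V / g ^ 4 * (2 + Real.log p) ^ k + (2 : ℝ) ^ k * (g / g ^ 4) * V := by
          apply add_le_add
          · exact mul_le_mul_of_nonneg_right h2 h5
          · apply mul_le_mul _ h3 (by positivity) (by positivity)
            exact mul_le_mul_of_nonneg_left h4 (by positivity)
      _ = V / g ^ 4 * ((2 + Real.log p) ^ k + (2 : ℝ) ^ k * g) := by ring
      _ ≤ V / g ^ 4 * (g * g) := by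
          apply mul_le_mul_of_nonneg_left _ (by positivity)
          have h6 : (2 + Real.log p) ^ k ≤ (2 + Real.log p) ^ k * g := by
            nlinarith
          have h7 : ((2 + Real.log p) ^ k + (2 : ℝ) ^ k) * g ≤ g * g :=
            mul_le_mul_of_nonneg_right hp1 hg0.le
          nlinarith
      _ = T := by
          rw [hTdef]
          field_simp
  have hZk0 : (0 : ℝ) < (Z : ℝ) ^ (k + 2) := by positivity
  have hsV : |(s.card : ℝ) - V| ≤ T := by
    have h1 := hcount 1 le_rfl (by omega) (fun _ => 0)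
    rw [← hs] at h1
    simp only [Nat.cast_one, one_pow, div_one] at h1
    exact h1
  have hTV : T * 64 ≤ V := by
    rw [← hTg]
    have : (64 : ℝ) ≤ g ^ 2 := by nlinarith
    exact mul_le_mul_of_nonneg_left this hT0.le
  have hsV2 : V / 2 ≤ s.card := by
    have := (abs_le.1 hsV).1
    linarith
  -- the good members
  have hmain := fam_count (d := k) (Z := Z) s w hZ6 (by
      rw [← Finset.card_pos]
      have : (0 : ℝ) < s.card := by linarith
      exact_mod_cast this)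
    (by
      intro q hq hqZ r
      rw [hclass q r]
      have h1 := hcount q hq hqZ r
      have hq1 : (1 : ℝ) ≤ (q : ℝ) ^ k := one_le_pow₀ (by exact_mod_cast hq)
      have h2 : |V / (q : ℝ) ^ k - s.card / (q : ℝ) ^ k| ≤ T := by
        rw [← sub_div, abs_div, abs_of_pos (by linarith : (0 : ℝ) < (q : ℝ) ^ k), abs_sub_comm]
        exact (div_le_self (abs_nonneg _) hq1).trans hsV
      have h3 : |((S.filter (fun x => ∀ i, F i x ∈ win p q (A i) (r i) (H i))).card : ℝ) -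
          s.card / (q : ℝ) ^ k| ≤ 2 * T := by
        rw [abs_le] at h1 h2 ⊢
        constructor <;> linarith [h1.1, h1.2, h2.1, h2.2]
      refine h3.trans ?_
      rw [le_div_iff₀ hZk0]
      calc 2 * T * (Z : ℝ) ^ (k + 2) ≤ 2 * T * g := mul_le_mul_of_nonneg_left hZk (by positivity)
        _ ≤ T * g ^ 2 / 2 := by
            have h4 : 0 ≤ T * g * (g - 4) :=
              mul_nonneg (mul_nonneg hT0.le (by linarith)) (by linarith)
            nlinarith
        _ = V / 2 := by rw [hTg]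
        _ ≤ s.card := hsV2)
    (fun x => good (w x)) (by
      intro t ht
      rw [hw] at ht ⊢
      exact hgood t ht)
  have hfinal : V * (p : ℝ) ^ (-δ) ≤ (s.card : ℝ) / (Z : ℝ) ^ (k + 2) := by
    rw [le_div_iff₀ hZk0, Real.rpow_neg hpr0.le, ← div_eq_mul_inv, div_mul_eq_mul_div,
      div_le_iff₀ (Real.rpow_pos_of_pos hpr0 _), hg4]
    have h2 : 2 * g ≤ g ^ 4 := by
      have h3 : (8 : ℝ) ≤ g ^ 3 := by
        calc (8 : ℝ) ≤ g := hg8
          _ = g ^ 1 := (pow_one g).symm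
          _ ≤ g ^ 3 := pow_le_pow_right₀ hg1 (by norm_num)
      have h4 : g ^ 4 = g ^ 3 * g := by ring
      rw [h4]
      nlinarith
    calc V * (Z : ℝ) ^ (k + 2) ≤ V * g := mul_le_mul_of_nonneg_left hZk hVpos.le
      _ = V / 2 * (2 * g) := by ring
      _ ≤ s.card * g ^ 4 := mul_le_mul hsV2 h2 (by linarith) (by linarith)
  refine (hfinal.trans hmain).trans ?_
  rw [Nat.cast_le]
  apply Finset.card_le_card
  intro x hx
  rw [mem_filter] at hx
  obtain ⟨hx1, hx2⟩ := hx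
  have hx3 := hws x hx1
  rw [hw] at hx3 hx2
  rw [hs, mem_filter] at hx1
  rw [mem_filter]
  exact ⟨hx1.1, hx3, hx2⟩

section

open Matrix

variable {p : ℕ} [Fact p.Prime]

lemma char_sum (h : ZMod p) : ∑ y : ZMod p, (ZMod.stdAddChar (h * y) : ℂ) =
    if h = 0 then (p : ℂ) else 0 := by
  have h2 := AddChar.sum_mulShift (ψ := ZMod.stdAddChar (N := p)) h (ZMod.isPrimitive_stdAddChar p)
  have h3 : ∑ y : ZMod p, (ZMod.stdAddChar (h * y) : ℂ) = ∑ y : ZMod p, (ZMod.stdAddChar (y * h) : ℂ) :=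
    Finset.sum_congr rfl fun y _ => by rw [mul_comm]
  rw [h3, h2, ZMod.card]
  split_ifs <;> simp

/-- the number of elements of the kernel of a matrix -/
lemma card_ker {d : ℕ} (T : Matrix (Fin d) (Fin d) (ZMod p)) :
    ((univ.filter (fun b : Fin d → ZMod p => T *ᵥ b = 0)).card) * p ^ T.rank = p ^ d := by
  classical
  have h1 : (univ.filter (fun b : Fin d → ZMod p => T *ᵥ b = 0)).card =
      Fintype.card (LinearMap.ker T.mulVecLin) := by
    rw [Fintype.card_of_subtype]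
    intro b
    simp [LinearMap.mem_ker]
  have h2 : Fintype.card (LinearMap.ker T.mulVecLin) =
      p ^ Module.finrank (ZMod p) (LinearMap.ker T.mulVecLin) := by
    rw [Module.card_eq_pow_finrank (K := ZMod p), ZMod.card]
  have h3 := LinearMap.finrank_range_add_finrank_ker T.mulVecLin
  rw [Module.finrank_fin_fun] at h3
  have h4 : T.rank = Module.finrank (ZMod p) (LinearMap.range T.mulVecLin) := rfl
  rw [h1, h2, h4, ← pow_add, add_comm, h3]

lemma dot_sum {d : ℕ} (c : Fin d → ZMod p) :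
    ∑ a : Fin d → ZMod p, (ZMod.stdAddChar (a ⬝ᵥ c) : ℂ) = if c = 0 then (p : ℂ) ^ d else 0 := by
  have h1 : ∑ a : Fin d → ZMod p, (ZMod.stdAddChar (a ⬝ᵥ c) : ℂ) =
      ∏ i, ∑ y : ZMod p, (ZMod.stdAddChar (y * c i) : ℂ) := by
    rw [Finset.prod_univ_sum, Fintype.piFinset_univ]
    exact Finset.sum_congr rfl fun a _ => stdAddChar_sum _ _
  have h2 : ∀ i, ∑ y : ZMod p, (ZMod.stdAddChar (y * c i) : ℂ) = if c i = 0 then (p : ℂ) else 0 := by
    intro i
    rw [← char_sum]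
    exact Finset.sum_congr rfl fun a _ => by rw [mul_comm]
  rw [h1]
  simp_rw [h2]
  rw [Finset.prod_ite_zero, Finset.prod_const, card_univ, Fintype.card_fin]
  congr 1
  simp only [eq_iff_iff]
  constructor
  · intro h; funext i; exact h i (mem_univ i)
  · intro h i _; rw [h]; rfl

/-- **Bilinear sums over arbitrary sets.** -/
theorem bil_est {d : ℕ} (T : Matrix (Fin d) (Fin d) (ZMod p)) (A B : Finset (Fin d → ZMod p))
    (φ ψ : (Fin d → ZMod p) → ZMod p) :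
    ‖∑ x ∈ A ×ˢ B, (ZMod.stdAddChar (x.1 ⬝ᵥ (T *ᵥ x.2) + φ x.1 + ψ x.2) : ℂ)‖ ^ 2 * (p : ℝ) ^ T.rank ≤
      A.card * B.card * (p : ℝ) ^ (2 * d) := by
  classical
  have hp0 : (0 : ℝ) < p := by exact_mod_cast (Fact.out : p.Prime).pos
  obtain ⟨U, hU⟩ : ∃ U : (Fin d → ZMod p) → ℂ, U = fun a =>
    ∑ b ∈ B, ZMod.stdAddChar (ψ b) * ZMod.stdAddChar (a ⬝ᵥ (T *ᵥ b)) := ⟨_, rfl⟩
  have h1 : ∑ x ∈ A ×ˢ B, (ZMod.stdAddChar (x.1 ⬝ᵥ (T *ᵥ x.2) + φ x.1 + ψ x.2) : ℂ) =
      ∑ a ∈ A, ZMod.stdAddChar (φ a) * U a := by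
    rw [Finset.sum_product]
    refine Finset.sum_congr rfl fun a _ => ?_
    rw [hU]
    simp only
    rw [Finset.mul_sum]
    refine Finset.sum_congr rfl fun b _ => ?_
    rw [AddChar.map_add_eq_mul, AddChar.map_add_eq_mul]
    ring
  have h2 : ‖∑ a ∈ A, ZMod.stdAddChar (φ a) * U a‖ ≤ ∑ a ∈ A, ‖U a‖ := by
    refine (norm_sum_le _ _).trans (Finset.sum_le_sum fun a _ => ?_)
    rw [norm_mul, AddChar.norm_apply, one_mul]
  have h3 : (∑ a ∈ A, ‖U a‖) ^ 2 ≤ A.card * ∑ a : Fin d → ZMod p, ‖U a‖ ^ 2 := by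
    refine (sq_sum_le_card_mul_sum_sq (s := A) (f := fun a => ‖U a‖)).trans ?_
    apply mul_le_mul_of_nonneg_left _ (Nat.cast_nonneg _)
    exact Finset.sum_le_sum_of_subset_of_nonneg (subset_univ _) fun _ _ _ => by positivity
  have h4 : ((∑ a : Fin d → ZMod p, ‖U a‖ ^ 2 : ℝ) : ℂ) =
      ∑ b ∈ B, ∑ b' ∈ B, (ZMod.stdAddChar (ψ b - ψ b') : ℂ) *
        (if T *ᵥ (b - b') = 0 then (p : ℂ) ^ d else 0) := by
    push_cast
    have h5 : ∀ a, ((‖U a‖ : ℂ)) ^ 2 = ∑ b ∈ B, ∑ b' ∈ B, (ZMod.stdAddChar (ψ b - ψ b') : ℂ) *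
        ZMod.stdAddChar (a ⬝ᵥ (T *ᵥ (b - b'))) := by
      intro a
      rw [← Complex.conj_mul']
      rw [mul_comm, hU]
      simp only
      rw [map_sum, Finset.sum_mul_sum]
      refine Finset.sum_congr rfl fun b _ => Finset.sum_congr rfl fun b' _ => ?_
      rw [map_mul, ← AddChar.map_neg_eq_conj, ← AddChar.map_neg_eq_conj, sub_eq_add_neg,
        AddChar.map_add_eq_mul, sub_eq_add_neg, Matrix.mulVec_add, dotProduct_add,
        AddChar.map_add_eq_mul, Matrix.mulVec_neg, dotProduct_neg]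
      ring
    simp_rw [h5]
    rw [Finset.sum_comm]
    refine Finset.sum_congr rfl fun b _ => ?_
    rw [Finset.sum_comm]
    refine Finset.sum_congr rfl fun b' _ => ?_
    rw [← Finset.mul_sum, dot_sum]
  have h6 : ∑ a : Fin d → ZMod p, ‖U a‖ ^ 2 ≤ ∑ b ∈ B,
      (((univ.filter (fun b : Fin d → ZMod p => T *ᵥ b = 0)).card : ℝ) * (p : ℝ) ^ d) := by
    have h7 : ∑ a : Fin d → ZMod p, ‖U a‖ ^ 2 =
        ‖∑ b ∈ B, ∑ b' ∈ B, (ZMod.stdAddChar (ψ b - ψ b') : ℂ) *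
        (if T *ᵥ (b - b') = 0 then (p : ℂ) ^ d else 0)‖ := by
      rw [← h4, Complex.norm_real, Real.norm_eq_abs, abs_of_nonneg]
      exact Finset.sum_nonneg fun _ _ => by positivity
    rw [h7]
    refine (norm_sum_le _ _).trans (Finset.sum_le_sum fun b _ => ?_)
    refine (norm_sum_le _ _).trans ?_
    have h8 : ∀ b' ∈ B, ‖(ZMod.stdAddChar (ψ b - ψ b') : ℂ) *
        (if T *ᵥ (b - b') = 0 then (p : ℂ) ^ d else 0)‖ =
        if T *ᵥ (b - b') = 0 then (p : ℝ) ^ d else 0 := by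
      intro b' _
      rw [norm_mul, AddChar.norm_apply, one_mul]
      split_ifs
      · rw [norm_pow, Complex.norm_natCast]
      · rw [norm_zero]
    rw [Finset.sum_congr rfl h8, ← Finset.sum_filter, Finset.sum_const, nsmul_eq_mul]
    apply mul_le_mul_of_nonneg_right _ (by positivity)
    rw [Nat.cast_le]
    apply Finset.card_le_card_of_injOn (fun b' => b - b')
    · intro b' hb'
      rw [mem_coe, mem_filter] at hb'
      rw [mem_coe, mem_filter]
      exact ⟨mem_univ _, hb'.2⟩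
    · intro x _ y _ hxy
      simpa using hxy
  rw [Finset.sum_const, nsmul_eq_mul] at h6
  have h9 : ((univ.filter (fun b : Fin d → ZMod p => T *ᵥ b = 0)).card : ℝ) * (p : ℝ) ^ T.rank =
      (p : ℝ) ^ d := by exact_mod_cast card_ker T
  rw [h1]
  calc ‖∑ a ∈ A, ZMod.stdAddChar (φ a) * U a‖ ^ 2 * (p : ℝ) ^ T.rank
      ≤ (∑ a ∈ A, ‖U a‖) ^ 2 * (p : ℝ) ^ T.rank := by
        apply mul_le_mul_of_nonneg_right _ (by positivity)
        exact pow_le_pow_left₀ (norm_nonneg _) h2 2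
    _ ≤ (A.card * (B.card * (((univ.filter (fun b : Fin d → ZMod p => T *ᵥ b = 0)).card : ℝ) *
          (p : ℝ) ^ d))) * (p : ℝ) ^ T.rank := by
        apply mul_le_mul_of_nonneg_right _ (by positivity)
        exact h3.trans (mul_le_mul_of_nonneg_left h6 (Nat.cast_nonneg _))
    _ = A.card * B.card * (((univ.filter (fun b : Fin d → ZMod p => T *ᵥ b = 0)).card : ℝ) *
          (p : ℝ) ^ T.rank) * (p : ℝ) ^ d := by ring
    _ = _ := by rw [h9]; ring

end

end Pool.Agent.N725.SQ
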