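import Pool.Agent.N725.SQ.Base
import Pool.Agent.N542.PV.Main

set_option autoImplicit false
set_option linter.unusedSectionVars false
set_option linter.unusedVariables false

/-! # Families of residues modulo `p` with small exponential sums: the squares -/

namespace Pool.Agent.N725.SQ

open Finset Filter
open Pool.Agent.W147.PS (ff ff_compare ev_pow)
open Pool.Agent.N542.PU (WellDist)
open Pool.Agent.N542.PV (AdmSq GoodSq rect_vec)

open scoped Classical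

/-- **Residues with small exponential sums**, an arbitrary property of the vectors. -/
theorem resid_gen (k : ℕ) (δ : ℝ) (hδ : 0 < δ) (hδ1 : δ ≤ 1) (K : ℝ) (hK : 0 ≤ K) :
    ∀ᶠ p : ℕ in atTop,
    ∀ [Fact p.Prime], ∀ (α : Type) (S : Finset α) (F : Fin k → α → ZMod p) (A : Fin k → ℤ) (H : Fin k → ℕ)
    (hS : S.card ≤ p)
    (hE : ∀ h : Fin k → ZMod p, h ≠ 0 → ‖∑ x ∈ S, (ZMod.stdAddChar (∑ i, h i * F i x) : ℂ)‖ ≤
      K * (p : ℝ) ^ (1 / 2 : ℝ) * (1 + Real.log p))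
    (hH : ∀ i, H i ≤ p) (hV : (p : ℝ) ^ (1 / 2 + δ) ≤ (∏ i, (H i : ℝ)) * S.card / (p : ℝ) ^ k)
    (good : (Fin k → ℤ) → Prop)
    (hgood : ∀ t : Finset α, Fam k ⌊(p : ℝ) ^ (δ / (4 * (k + 2)))⌋₊ t (fun x i => rep (A i) (H i) (F i x)) →
      ∃ a ∈ t, good (fun i => rep (A i) (H i) (F i a))),
    (∏ i, (H i : ℝ)) * S.card / (p : ℝ) ^ k * (p : ℝ) ^ (-δ) ≤
      ((S.filter (fun x => (∀ i, A i < rep (A i) (H i) (F i x) ∧ rep (A i) (H i) (F i x) ≤ A i + H i ∧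
          ((rep (A i) (H i) (F i x) : ℤ) : ZMod p) = F i x) ∧
        good (fun i => rep (A i) (H i) (F i x)))).card : ℝ) := by
  obtain ⟨η, hη⟩ : ∃ η : ℝ, η = δ / (4 * (k + 2)) := ⟨_, rfl⟩
  rw [← hη]
  have hk2 : (0 : ℝ) < 4 * (k + 2) := by positivity
  have hη0 : 0 < η := by rw [hη]; positivity
  have hηk : η * (k + 2) = δ / 4 := by rw [hη]; field_simp
  have hη1 : η ≤ 1 / 8 := by
    rw [hη, div_le_iff₀ hk2]
    have : (0 : ℝ) ≤ k := Nat.cast_nonneg k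
    linarith
  -- the large parameters
  have hT : Tendsto (fun p : ℕ => (p : ℝ)) atTop atTop := tendsto_natCast_atTop_atTop
  have e1 : ∀ᶠ x : ℝ in atTop, (K * (1 + Real.log x) * (2 + Real.log x) ^ k + k) ≤ x ^ (δ / 4) := by
    have h1 : (fun x : ℝ => (2 + Real.log x) ^ (k + 1)) =o[atTop] fun x : ℝ => x ^ (δ / 4) := by
      have h2 : (fun x : ℝ => (2 + Real.log x)) =O[atTop] Real.log := by
        have h3 : (fun _ : ℝ => (2 : ℝ)) =O[atTop] Real.log :=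
          (Real.isLittleO_const_log_atTop (c := 2)).isBigO
        exact h3.add (Asymptotics.isBigO_refl _ _)
      have h4 : (fun x : ℝ => Real.log x ^ (k + 1)) =o[atTop] fun x : ℝ => x ^ (δ / 4) := by
        have h5 := isLittleO_log_rpow_rpow_atTop (s := δ / 4) ((k : ℝ) + 1) (by positivity)
        refine h5.congr' ?_ (Filter.EventuallyEq.refl _ _)
        filter_upwards with x
        have : ((k : ℝ) + 1) = ((k + 1 : ℕ) : ℝ) := by push_cast; ring
        rw [this, Real.rpow_natCast]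
      exact (h2.pow (k + 1)).trans_isLittleO h4
    have h6 := h1.def (show (0 : ℝ) < 1 / (K + k + 1) by positivity)
    filter_upwards [h6, eventually_ge_atTop (1 : ℝ)] with x hx hx1
    have hl := Real.log_nonneg hx1
    rw [Real.norm_of_nonneg (by positivity), Real.norm_of_nonneg (by positivity), one_div,
      inv_mul_eq_div, le_div_iff₀ (by positivity)] at hx
    have h7 : (1 + Real.log x) * (2 + Real.log x) ^ k ≤ (2 + Real.log x) ^ (k + 1) := by
      rw [pow_succ, mul_comm]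
      exact mul_le_mul_of_nonneg_left (by linarith) (by positivity)
    have h8 : (1 : ℝ) ≤ (2 + Real.log x) ^ (k + 1) := one_le_pow₀ (by linarith)
    calc K * (1 + Real.log x) * (2 + Real.log x) ^ k + k
        = K * ((1 + Real.log x) * (2 + Real.log x) ^ k) + k * 1 := by ring
      _ ≤ K * (2 + Real.log x) ^ (k + 1) + k * (2 + Real.log x) ^ (k + 1) :=
          add_le_add (mul_le_mul_of_nonneg_left h7 hK)
            (mul_le_mul_of_nonneg_left h8 (Nat.cast_nonneg _))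
      _ ≤ (2 + Real.log x) ^ (k + 1) * (K + k + 1) := by nlinarith
      _ ≤ _ := hx
  have e2 : ∀ᶠ x : ℝ in atTop, 8 ≤ x ^ (δ / 2) :=
    (tendsto_rpow_atTop (by positivity)).eventually_ge_atTop 8
  have e3 : ∀ᶠ x : ℝ in atTop, (8 : ℝ) ≤ x ^ (η / 2) :=
    (tendsto_rpow_atTop (by positivity)).eventually_ge_atTop _
  filter_upwards [hT.eventually e1, hT.eventually e2, hT.eventually e3,
    eventually_ge_atTop 2] with p hp1 hp2 hp3 hp5
  intro hpF α S F A H hS hE hH hV good hgood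
  have hp : p.Prime := hpF.out
  have hpr1 : (1 : ℝ) < p := by exact_mod_cast hp.one_lt
  have hpr0 : (0 : ℝ) < p := by linarith
  obtain ⟨V, hVdef⟩ : ∃ V : ℝ, V = (∏ i, (H i : ℝ)) * S.card / (p : ℝ) ^ k := ⟨_, rfl⟩
  rw [← hVdef] at hV ⊢
  -- the modulus scale
  obtain ⟨Z, hZ⟩ : ∃ Z : ℕ, Z = ⌊(p : ℝ) ^ η⌋₊ := ⟨_, rfl⟩
  rw [← hZ] at hgood
  have hpη : 0 < (p : ℝ) ^ η := Real.rpow_pos_of_pos hpr0 _
  have hZle : (Z : ℝ) ≤ (p : ℝ) ^ η := by rw [hZ]; exact Nat.floor_le hpη.le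
  have hhalf : (p : ℝ) ^ (η / 2) * (p : ℝ) ^ (η / 2) = (p : ℝ) ^ η := by
    rw [← Real.rpow_add hpr0]; congr 1; ring
  obtain ⟨y, hy⟩ : ∃ y : ℝ, y = (p : ℝ) ^ (η / 2) := ⟨_, rfl⟩
  rw [← hy] at hp3 hhalf
  have hyZ : y ≤ Z := by
    have h1 : (p : ℝ) ^ η < Z + 1 := by rw [hZ]; exact Nat.lt_floor_add_one _
    rw [← hhalf] at h1
    nlinarith
  have hZ7 : (7 : ℝ) ≤ Z := by linarith
  have hZ6 : 6 ≤ Z := by
    have : (6 : ℝ) ≤ Z := by linarith
    exact_mod_cast this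
  have hZp : (Z : ℝ) < p := by
    refine hZle.trans_lt ?_
    calc (p : ℝ) ^ η < (p : ℝ) ^ (1 : ℝ) := Real.rpow_lt_rpow_of_exponent_lt hpr1 (by linarith)
      _ = p := Real.rpow_one _
  -- the family
  obtain ⟨s, hs⟩ : ∃ s : Finset α, s = S.filter (fun x => ∀ i, F i x ∈ win p 1 (A i) 0 (H i)) := ⟨_, rfl⟩
  obtain ⟨w, hw⟩ : ∃ w : α → Fin k → ℤ, w = fun x i => rep (A i) (H i) (F i x) := ⟨_, rfl⟩
  have hws : ∀ x ∈ s, ∀ i, A i < w x i ∧ w x i ≤ A i + H i ∧ ((w x i : ℤ) : ZMod p) = F i x := by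
    intro x hx i
    rw [hs, mem_filter] at hx
    obtain ⟨n, h1, h2, -, h4⟩ := mem_win.1 (hx.2 i)
    rw [hw]
    exact rep_spec ⟨n, h1, h2, h4⟩
  have hclass : ∀ q : ℕ, ∀ r : Fin k → ℤ, s.filter (fun x => ∀ j, (q : ℤ) ∣ w x j - r j) =
      S.filter (fun x => ∀ i, F i x ∈ win p q (A i) (r i) (H i)) := by
    intro q r
    ext x
    rw [mem_filter, mem_filter]
    constructor
    · rintro ⟨h1, h2⟩
      have h3 := hws x h1
      rw [hs, mem_filter] at h1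
      refine ⟨h1.1, fun i => mem_win.2 ⟨w x i, (h3 i).1, (h3 i).2.1, h2 i, (h3 i).2.2⟩⟩
    · rintro ⟨h1, h2⟩
      have h3 : x ∈ s := by
        rw [hs, mem_filter]
        refine ⟨h1, fun i => ?_⟩
        obtain ⟨n, a1, a2, a3, a4⟩ := mem_win.1 (h2 i)
        exact mem_win.2 ⟨n, a1, a2, by simp, a4⟩
      refine ⟨h3, fun i => ?_⟩
      obtain ⟨n, a1, a2, a3, a4⟩ := mem_win.1 (h2 i)
      obtain ⟨b1, b2, b3⟩ := hws x h3 i
      have h4 : w x i = n := eq_of_win (hH i) b1 b2 a1 a2 (by rw [b3, a4])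
      rw [h4]
      exact a3
  obtain ⟨E1, hE1⟩ : ∃ E1 : ℝ, E1 = K * (p : ℝ) ^ (1 / 2 : ℝ) * (1 + Real.log p) *
    (2 + Real.log p) ^ k + k := ⟨_, rfl⟩
  have hlog : 0 ≤ Real.log p := Real.log_nonneg hpr1.le
  have hsqrt1 : 1 ≤ (p : ℝ) ^ (1 / 2 : ℝ) := Real.one_le_rpow hpr1.le (by norm_num)
  have hcount : ∀ q : ℕ, 1 ≤ q → q ≤ Z → ∀ r : Fin k → ℤ,
      |((S.filter (fun x => ∀ i, F i x ∈ win p q (A i) (r i) (H i))).card : ℝ) - V / (q : ℝ) ^ k| ≤ E1 := by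
    intro q hq hqZ r
    rw [hVdef, hE1]
    have hqp : q < p := by
      have : (q : ℝ) ≤ Z := by exact_mod_cast hqZ
      have : (q : ℝ) < p := by linarith
      exact_mod_cast this
    exact win_count k S hS F _ (by positivity) hE q hq hqp A r H hH
  have hE1le : E1 ≤ (p : ℝ) ^ (1 / 2 : ℝ) * (p : ℝ) ^ (δ / 4) := by
    rw [hE1]
    calc K * (p : ℝ) ^ (1 / 2 : ℝ) * (1 + Real.log p) * (2 + Real.log p) ^ k + k
        ≤ (p : ℝ) ^ (1 / 2 : ℝ) * (K * (1 + Real.log p) * (2 + Real.log p) ^ k) +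
          (p : ℝ) ^ (1 / 2 : ℝ) * k := by
          have h1 : (k : ℝ) ≤ (p : ℝ) ^ (1 / 2 : ℝ) * k := by
            have : (0 : ℝ) ≤ k := Nat.cast_nonneg k
            nlinarith
          have h2 : K * (p : ℝ) ^ (1 / 2 : ℝ) * (1 + Real.log p) * (2 + Real.log p) ^ k =
            (p : ℝ) ^ (1 / 2 : ℝ) * (K * (1 + Real.log p) * (2 + Real.log p) ^ k) := by ring
          rw [h2]
          linarith
      _ = (p : ℝ) ^ (1 / 2 : ℝ) * (K * (1 + Real.log p) * (2 + Real.log p) ^ k + k) := by ring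
      _ ≤ _ := mul_le_mul_of_nonneg_left hp1 (by linarith)
  -- the sizes
  obtain ⟨T, hTdef⟩ : ∃ T : ℝ, T = (p : ℝ) ^ (1 / 2 : ℝ) * (p : ℝ) ^ (δ / 4) := ⟨_, rfl⟩
  obtain ⟨g, hg⟩ : ∃ g : ℝ, g = (p : ℝ) ^ (δ / 4) := ⟨_, rfl⟩
  have hg1 : 1 ≤ g := by rw [hg]; exact Real.one_le_rpow hpr1.le (by positivity)
  have hg2 : 8 ≤ g ^ 2 := by
    rw [hg, ← Real.rpow_natCast, ← Real.rpow_mul hpr0.le]
    convert hp2 using 2
    push_cast
    ring
  have hT0 : 0 < T := by rw [hTdef]; positivity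
  have hVT : T * g ^ 3 ≤ V := by
    refine le_trans (le_of_eq ?_) hV
    rw [hTdef, hg, ← Real.rpow_natCast, ← Real.rpow_mul hpr0.le, ← Real.rpow_add hpr0,
      ← Real.rpow_add hpr0]
    congr 1
    push_cast
    ring
  rw [← hTdef] at hE1le
  have hZk : (Z : ℝ) ^ (k + 2) ≤ g := by
    calc (Z : ℝ) ^ (k + 2) ≤ ((p : ℝ) ^ η) ^ (k + 2) :=
          pow_le_pow_left₀ (Nat.cast_nonneg _) hZle _
      _ = g := by
          rw [hg, ← Real.rpow_natCast, ← Real.rpow_mul hpr0.le]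
          congr 1
          push_cast
          exact hηk
  have hsV : |(s.card : ℝ) - V| ≤ T := by
    have h1 := hcount 1 le_rfl (by omega) (fun _ => 0)
    rw [← hs] at h1
    simp only [Nat.cast_one, one_pow, div_one] at h1
    exact h1.trans hE1le
  have hTV : T * 8 ≤ V := by
    have : T * 8 ≤ T * g ^ 3 := by
      apply mul_le_mul_of_nonneg_left _ hT0.le
      nlinarith
    linarith
  have hV0 : 0 < V := by nlinarith
  have hsV2 : V / 2 ≤ s.card := by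
    have := (abs_le.1 hsV).1
    linarith
  have hZ0 : (0 : ℝ) < (Z : ℝ) ^ (k + 2) := by positivity
  -- the good members
  have hmain := fam_count (d := k) (Z := Z) s w hZ6 (by
      rw [← Finset.card_pos]
      have : (0 : ℝ) < s.card := by linarith
      exact_mod_cast this)
    (by
      intro q hq hqZ r
      rw [hclass q r]
      have h1 := (hcount q hq hqZ r).trans hE1le
      have hq1 : (1 : ℝ) ≤ (q : ℝ) ^ k := one_le_pow₀ (by exact_mod_cast hq)
      have h2 : |V / (q : ℝ) ^ k - s.card / (q : ℝ) ^ k| ≤ T := by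
        rw [← sub_div, abs_div, abs_of_pos (by linarith : (0 : ℝ) < (q : ℝ) ^ k), abs_sub_comm]
        exact (div_le_self (abs_nonneg _) hq1).trans hsV
      have h3 : |((S.filter (fun x => ∀ i, F i x ∈ win p q (A i) (r i) (H i))).card : ℝ) -
          s.card / (q : ℝ) ^ k| ≤ 2 * T := by
        rw [abs_le] at h1 h2 ⊢
        constructor <;> linarith [h1.1, h1.2, h2.1, h2.2]
      refine h3.trans ?_
      rw [le_div_iff₀ hZ0]
      calc 2 * T * (Z : ℝ) ^ (k + 2) ≤ 2 * T * g := mul_le_mul_of_nonneg_left hZk (by positivity)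
        _ ≤ T * g ^ 3 / 2 := by
            have h4 : 0 ≤ T * g * (g ^ 2 - 8) :=
              mul_nonneg (mul_nonneg hT0.le (by linarith)) (by linarith)
            nlinarith
        _ ≤ V / 2 := by linarith
        _ ≤ s.card := hsV2)
    (fun x => good (w x)) (by
      intro t ht
      rw [hw] at ht ⊢
      exact hgood t ht)
  have hfinal : V * (p : ℝ) ^ (-δ) ≤ (s.card : ℝ) / (Z : ℝ) ^ (k + 2) := by
    rw [le_div_iff₀ hZ0, Real.rpow_neg hpr0.le, ← div_eq_mul_inv, div_mul_eq_mul_div,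
      div_le_iff₀ (Real.rpow_pos_of_pos hpr0 _)]
    have h1 : (p : ℝ) ^ δ = g ^ 4 := by
      rw [hg, ← Real.rpow_natCast, ← Real.rpow_mul hpr0.le]
      congr 1
      push_cast
      ring
    rw [h1]
    have h2 : 2 * g ≤ g ^ 4 := by nlinarith [sq_nonneg g]
    calc V * (Z : ℝ) ^ (k + 2) ≤ V * g := mul_le_mul_of_nonneg_left hZk hV0.le
      _ = V / 2 * (2 * g) := by ring
      _ ≤ s.card * g ^ 4 := mul_le_mul hsV2 h2 (by linarith) (by linarith)
  refine (hfinal.trans hmain).trans ?_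
  rw [Nat.cast_le]
  apply Finset.card_le_card
  intro x hx
  rw [mem_filter] at hx
  obtain ⟨hx1, hx2⟩ := hx
  have hx3 := hws x hx1
  rw [hw] at hx3 hx2
  rw [hs, mem_filter] at hx1
  rw [mem_filter]
  exact ⟨hx1.1, hx3, hx2⟩

/-- the admissible pairs for a power -/
lemma adm_pow (c : ℝ) (hc0 : 0 < c) (b : ℕ) (θ' : ℝ) (hθ'0 : 0 < θ') (hθ'1 : θ' ≤ 1) :
    ∀ᶠ M : ℝ in atTop, ∀ (A : ℕ) (K : Finset ℤ),
      AdmSq (c * (θ' / 32)) b (Real.log M) (Real.log (Real.log M)) (ff M) A K →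
      AdmSq c (b + 1) (Real.log (M ^ θ')) (Real.log (Real.log (M ^ θ'))) (ff (M ^ θ')) A K := by
  have t1 : Tendsto (fun M : ℝ => Real.log M) atTop atTop := Real.tendsto_log_atTop
  have t2 : Tendsto (fun M : ℝ => Real.log (Real.log M)) atTop atTop := t1.comp t1
  filter_upwards [eventually_ge_atTop (1 : ℝ), t1.eventually_ge_atTop (1 / θ' ^ (b + 1)),
    t1.eventually_ge_atTop 3, t2.eventually_ge_atTop 1,
    t2.eventually_ge_atTop (-(2 * Real.log θ')), ff_compare θ' hθ'0 hθ'1]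
    with M hM1 hMl hM3 hMl1 hMll hMf
  intro A K hadm
  have hM0 : 0 < M := by linarith
  have hmono : ∀ x y : ℝ, x ≤ y → M ^ x ≤ M ^ y := fun x y h =>
    Real.rpow_le_rpow_of_exponent_le hM1 h
  have hlog : Real.log (M ^ θ') = θ' * Real.log M := Real.log_rpow hM0 _
  have hl0 : 0 < Real.log M := by linarith
  have hff0 : 0 < ff M := by linarith [hMf.1]
  have hff : θ' / 32 * ff M ≤ ff (M ^ θ') := (hMf.2 (M ^ θ') le_rfl (by
    calc M ^ θ' ≤ M ^ (2 : ℝ) := hmono _ _ (by linarith)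
      _ = M ^ 2 := by norm_num)).1
  have hlin : c * (θ' / 32) * Real.log M ≤ c * Real.log (M ^ θ') := by
    rw [hlog]
    have : 0 ≤ c * (θ' * Real.log M) := by positivity
    nlinarith
  rcases hadm with ⟨hK, hAK⟩ | ⟨H, hKI, hH2, hA⟩
  · left
    constructor
    · intro t ht
      refine (hK t ht).trans ?_
      rw [hlog, mul_pow, pow_succ (Real.log M)]
      have e1 : 1 ≤ θ' ^ (b + 1) * Real.log M := by
        rwa [div_le_iff₀' (by positivity)] at hMl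
      have e2 : (0:ℝ) ≤ (Real.log M) ^ b := by positivity
      nlinarith
    · refine hAK.trans ?_
      rw [hlog, Real.log_mul hθ'0.ne' hl0.ne']
      have e3 : Real.log (Real.log M) / 2 ≤ Real.log θ' + Real.log (Real.log M) := by linarith
      calc c * (θ' / 32) * Real.log M * Real.log (Real.log M)
          = c * (θ' * Real.log M) * (Real.log (Real.log M) / 32) := by ring
        _ ≤ c * (θ' * Real.log M) * (Real.log (Real.log M) / 2) := by
            apply mul_le_mul_of_nonneg_left _ (by positivity)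
            linarith
        _ ≤ _ := mul_le_mul_of_nonneg_left e3 (by positivity)
  · right
    refine ⟨H, hKI, hH2.trans hlin, ?_⟩
    rcases hA with hA | hA
    · exact Or.inl (hA.trans hlin)
    · right
      refine hA.trans ?_
      calc c * (θ' / 32) * ff M = c * (θ' / 32 * ff M) := by ring
        _ ≤ _ := mul_le_mul_of_nonneg_left hff hc0.le

lemma fam_wellDist {k Z : ℕ} {α : Type} {t : Finset α} {w : α → Fin k → ℤ} (h : Fam k Z t w)
    {Y : ℝ} (hY0 : 0 < Y) (hY : Y ≤ Z) : WellDist Y t w := by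
  intro q hq hqY ρ
  have h1 := h.2 q hq (by
    have : (q : ℝ) ≤ Z := hqY.trans hY
    exact_mod_cast this) ρ
  refine h1.trans ?_
  rw [div_eq_mul_inv]
  apply mul_le_mul_of_nonneg_left _ (Nat.cast_nonneg _)
  rw [Real.rpow_neg hY0.le]
  apply inv_anti₀ (Real.rpow_pos_of_pos hY0 _)
  have e : ((k : ℝ) + 1) = ((k + 1 : ℕ) : ℝ) := by push_cast; ring
  rw [e, Real.rpow_natCast]
  exact pow_le_pow_left₀ hY0.le hY _

/-- **Squares at residues with small exponential sums.** -/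
theorem resid_sq (k : ℕ) (hk : 1 ≤ k) (b : ℕ) (δ : ℝ) (hδ : 0 < δ) (hδ1 : δ ≤ 1) (L : ℝ) (hL : 0 ≤ L) :
    ∃ κ : ℝ, 0 < κ ∧ ∀ᶠ p : ℕ in atTop,
    ∀ [Fact p.Prime], ∀ (α : Type) (S : Finset α) (F : Fin k → α → ZMod p) (M : Fin k → ℤ) (H : Fin k → ℕ)
    (hS : S.card ≤ p)
    (hE : ∀ h : Fin k → ZMod p, h ≠ 0 → ‖∑ x ∈ S, (ZMod.stdAddChar (∑ i, h i * F i x) : ℂ)‖ ≤
      L * (p : ℝ) ^ (1 / 2 : ℝ) * (1 + Real.log p))
    (hH : ∀ i, H i ≤ p) (hV : (p : ℝ) ^ (1 / 2 + δ) ≤ (∏ i, (H i : ℝ)) * S.card / (p : ℝ) ^ k)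
    (A : ℕ) (K : Finset ℤ)
    (hadm : AdmSq κ b (Real.log p) (Real.log (Real.log p)) (ff p) A K),
    (∏ i, (H i : ℝ)) * S.card / (p : ℝ) ^ k * (p : ℝ) ^ (-δ) ≤
      ((S.filter (fun x => (∀ i, M i < rep (M i) (H i) (F i x) ∧ rep (M i) (H i) (F i x) ≤ M i + H i ∧
          ((rep (M i) (H i) (F i x) : ℤ) : ZMod p) = F i x) ∧
        GoodSq K A ((p : ℝ) ^ δ) (fun i => rep (M i) (H i) (F i x)))).card : ℝ) := by
  obtain ⟨c, hc, Y₀, hrect⟩ := rect_vec k hk (b + 1)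
  obtain ⟨η, hη⟩ : ∃ η : ℝ, η = δ / (4 * (k + 2)) := ⟨_, rfl⟩
  have hk2 : (0 : ℝ) < 4 * (k + 2) := by positivity
  have hη0 : 0 < η := by rw [hη]; positivity
  have hη1 : η ≤ 1 / 8 := by
    rw [hη, div_le_iff₀ hk2]
    have : (0 : ℝ) ≤ k := Nat.cast_nonneg k
    linarith
  have hηδ : η ≤ δ := by
    rw [hη]
    apply div_le_self hδ.le
    have : (0 : ℝ) ≤ k := Nat.cast_nonneg k
    linarith
  refine ⟨c * ((η / 2) / 32), by positivity, ?_⟩
  have hT : Tendsto (fun p : ℕ => (p : ℝ)) atTop atTop := tendsto_natCast_atTop_atTop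
  have e3 : ∀ᶠ x : ℝ in atTop, max Y₀ 2 ≤ x ^ (η / 2) :=
    (tendsto_rpow_atTop (by positivity)).eventually_ge_atTop _
  filter_upwards [resid_gen k δ hδ hδ1 L hL, hT.eventually e3,
    hT.eventually (adm_pow c hc b (η / 2) (by positivity) (by linarith)), eventually_ge_atTop 2]
    with p hgen hp3 hp4 hp5
  intro hpF α S F M H hS hE hH hV A K hadm
  have hp : p.Prime := hpF.out
  have hpr1 : (1 : ℝ) < p := by exact_mod_cast hp.one_lt
  have hpr0 : (0 : ℝ) < p := by linarith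
  obtain ⟨y, hy⟩ : ∃ y : ℝ, y = (p : ℝ) ^ (η / 2) := ⟨_, rfl⟩
  have hhalf : (p : ℝ) ^ (η / 2) * (p : ℝ) ^ (η / 2) = (p : ℝ) ^ η := by
    rw [← Real.rpow_add hpr0]; congr 1; ring
  have hp4' := hp4 A K hadm
  rw [← hy] at hp3 hp4' hhalf
  have hy2 : 2 ≤ y := (le_max_right _ _).trans hp3
  have hyY : Y₀ ≤ y := (le_max_left _ _).trans hp3
  refine hgen α S F M H hS hE hH hV (GoodSq K A ((p : ℝ) ^ δ)) ?_
  intro t ht
  rw [← hη] at ht
  have hyZ : y ≤ (⌊(p : ℝ) ^ η⌋₊ : ℝ) := by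
    have h1 : (p : ℝ) ^ η < (⌊(p : ℝ) ^ η⌋₊ : ℝ) + 1 := Nat.lt_floor_add_one _
    rw [← hhalf] at h1 ⊢
    nlinarith
  obtain ⟨x, hx, hx2⟩ := hrect y hyY A K hp4' α t _ ht.1 (fam_wellDist ht (by linarith) hyZ)
  refine ⟨x, hx, ?_⟩
  intro j n hn a ha hsq
  obtain ⟨q, hq, hq1, hq2⟩ := hx2 j n hn a ha hsq
  refine ⟨q, hq, hq1.trans ?_, hq2⟩
  rw [hy, ← Real.rpow_mul hpr0.le]
  exact Real.rpow_le_rpow_of_exponent_le hpr1.le (by linarith)

end Pool.Agent.N725.SQ
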