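import Pool.Agent.N725.SQ.OppMain
import Pool.Agent.N286.DE.SumB

set_option autoImplicit false
set_option linter.unusedSectionVars false
set_option linter.unusedVariables false

/-! # The intervals between consecutive odd squares at the orbits of matrices modulo a prime -/

namespace Pool.Agent.N725.SQ

open Finset Filter Matrix
open Pool.Agent.W147.PS (ff ff_compare ev_pow)
open Pool.Agent.N542.PV (AdmSq GoodSq rect_vec)

open scoped Classical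

/-- the numbers `X² + a`, `X = 2 x + σ`, `x = v i + t`, `0 ≤ t < J`, `σ ∈ {-1, 0, 1}`, `|a| ≤ A`, have a prime
factor `≤ y` unless `-a` is a square -/
def GoodOdd {k : ℕ} (J A : ℕ) (y : ℝ) (v : Fin k → ℤ) : Prop :=
  ∀ i, ∀ t : ℕ, t < J → ∀ σ : ℤ, -1 ≤ σ → σ ≤ 1 → ∀ a : ℤ, |a| ≤ A → ¬ IsSquare (-a) →
    ∃ l : ℕ, l.Prime ∧ (l : ℝ) ≤ y ∧ (l : ℤ) ∣ (2 * (v i + t) + σ) ^ 2 + a

/-- **Consecutive odd squares for families.** -/
theorem odd_vec (k : ℕ) (hk : 1 ≤ k) : ∃ c : ℝ, 0 < c ∧ ∃ Y₀ : ℝ, ∀ Y : ℝ, Y₀ ≤ Y →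
    ∀ (J A : ℕ), (J : ℝ) ^ 2 ≤ c * Real.log Y → (A : ℝ) * J ≤ c * ff Y →
    ∀ (Z : ℕ), Y ≤ Z → ∀ (α : Type) (t : Finset α) (w : α → Fin k → ℤ), Fam k Z t w →
      ∃ x ∈ t, GoodOdd J A (Y ^ (1 / 10 : ℝ)) (w x) := by
  obtain ⟨c, hc, Y₀, hrect⟩ := rect_vec k hk 0
  obtain ⟨c', hc'⟩ : ∃ c' : ℝ, c' = min 1 (c / 64) := ⟨_, rfl⟩
  have hc'0 : 0 < c' := by rw [hc']; positivity
  have hc'1 : c' ≤ 1 := by rw [hc']; exact min_le_left _ _
  have hc'c : c' ≤ c / 64 := by rw [hc']; exact min_le_right _ _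
  have t1 : Tendsto (fun Y : ℝ => Real.log Y) atTop atTop := Real.tendsto_log_atTop
  obtain ⟨Y₁, hY₁⟩ := eventually_atTop.1 ((t1.eventually_ge_atTop (max 1 (32 / c))).and
    ((ff_big (8 / c)).and (eventually_ge_atTop 2)))
  refine ⟨c', hc'0, max Y₀ Y₁, ?_⟩
  intro Y hY J A hJ hA Z hYZ α t w hfam
  obtain ⟨hl, hff, hY2⟩ := hY₁ Y ((le_max_right _ _).trans hY)
  have hY0 : (0 : ℝ) < Y := by linarith
  have hl1 : 1 ≤ Real.log Y := (le_max_left _ _).trans hl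
  have hl2 : 32 / c ≤ Real.log Y := (le_max_right _ _).trans hl
  rw [div_le_iff₀ hc] at hl2
  rcases Nat.eq_zero_or_pos J with hJ0 | hJpos
  · obtain ⟨x, hx⟩ := hfam.1
    refine ⟨x, hx, ?_⟩
    intro i t' ht'
    omega
  have hJ1 : (1 : ℝ) ≤ J := by exact_mod_cast hJpos
  have hJ2 : (J : ℝ) ≤ Real.log Y := by nlinarith
  have hA0 : (0 : ℝ) ≤ A := Nat.cast_nonneg _
  have hff0 : 0 ≤ ff Y := le_trans (by positivity) hff
  have hff' : 8 * Real.log Y ≤ c * ff Y := by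
    have := mul_le_mul_of_nonneg_left hff hc.le
    have e : c * (8 / c * Real.log Y) = 8 * Real.log Y := by field_simp
    linarith
  obtain ⟨x, hx, hgood⟩ := hrect Y ((le_max_left _ _).trans hY) A (Ico (0 : ℤ) ((2 * J + 3 : ℕ) : ℤ))
    (by
      right
      refine ⟨2 * J + 3, rfl, ?_, Or.inr ?_⟩
      · push_cast
        have h1 : (J : ℝ) ^ 2 ≤ c / 64 * Real.log Y :=
          hJ.trans (mul_le_mul_of_nonneg_right hc'c (by linarith))
        nlinarith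
      · push_cast
        have h1 : (A : ℝ) * J ≤ c / 64 * ff Y :=
          hA.trans (mul_le_mul_of_nonneg_right hc'c hff0)
        have h2 : (A : ℝ) ≤ A * J := by nlinarith
        nlinarith)
    (α × (Fin k → Fin 2)) (t ×ˢ univ) (aux (-1) w)
    (hfam.1.product univ_nonempty)
    (aux_wellDist hfam hY0 hYZ _ (by decide))
  obtain ⟨x, ε⟩ := x
  rw [Finset.mem_product] at hx
  refine ⟨x, hx.1, ?_⟩
  intro i t' ht' σ hσ1 hσ2 a ha hsq
  have hε : ((ε i : ℕ) : ℤ) < 2 := by exact_mod_cast (ε i).isLt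
  have hε0 : 0 ≤ ((ε i : ℕ) : ℤ) := Int.natCast_nonneg _
  have ht'' : (t' : ℤ) < J := by exact_mod_cast ht'
  obtain ⟨l, hl, hl1', hl2'⟩ := hgood i (2 * t' + σ + 2 + (ε i : ℕ)) (by
      rw [mem_Ico]
      push_cast
      constructor <;> omega) a ha hsq
  refine ⟨l, hl, hl1', ?_⟩
  have hv : aux (-1) w (x, ε) i + (2 * t' + σ + 2 + (ε i : ℕ)) = 2 * (w x i + t') + σ := by
    simp only [aux]
    ring
  rwa [hv] at hl2'

/-- **Consecutive odd squares at vectors of residues with small exponential sums.** -/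
theorem resid2_odd (k : ℕ) (hk : 1 ≤ k) (δ : ℝ) (hδ : 0 < δ) (hδ1 : δ ≤ 1) :
    ∃ κ : ℝ, 0 < κ ∧ ∀ᶠ p : ℕ in atTop,
    ∀ [Fact p.Prime], ∀ (α : Type) (S : Finset α) (F : Fin k → α → ZMod p) (M : Fin k → ℤ) (H : Fin k → ℕ)
    (E₀ : ℝ) (_ : 0 ≤ E₀) (_ : S.Nonempty)
    (_ : ∀ h : Fin k → ZMod p, h ≠ 0 → ‖∑ x ∈ S, (ZMod.stdAddChar (∑ i, h i * F i x) : ℂ)‖ ≤ E₀)
    (_ : ∀ i, (p : ℝ) ^ δ ≤ H i ∧ H i ≤ p)
    (_ : E₀ * (p : ℝ) ^ δ ≤ (∏ i, (H i : ℝ)) * S.card / (p : ℝ) ^ k)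
    (J A : ℕ) (_ : (J : ℝ) ^ 2 ≤ κ * Real.log p) (_ : (A : ℝ) * J ≤ κ * ff p),
    (∏ i, (H i : ℝ)) * S.card / (p : ℝ) ^ k * (p : ℝ) ^ (-δ) ≤
      ((S.filter (fun x => (∀ i, M i < rep (M i) (H i) (F i x) ∧ rep (M i) (H i) (F i x) ≤ M i + H i ∧
          ((rep (M i) (H i) (F i x) : ℤ) : ZMod p) = F i x) ∧
        GoodOdd J A ((p : ℝ) ^ δ) (fun i => rep (M i) (H i) (F i x)))).card : ℝ) := by
  obtain ⟨c, hc, Y₀, hopp⟩ := odd_vec k hk
  obtain ⟨η, hη⟩ : ∃ η : ℝ, η = δ / (4 * (k + 2)) := ⟨_, rfl⟩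
  have hk2 : (0 : ℝ) < 4 * (k + 2) := by positivity
  have hη0 : 0 < η := by rw [hη]; positivity
  have hη1 : η ≤ 1 / 8 := by
    rw [hη, div_le_iff₀ hk2]
    have : (0 : ℝ) ≤ k := Nat.cast_nonneg k
    linarith
  have hηδ : η ≤ δ := by
    rw [hη]
    apply div_le_self hδ.le
    have : (0 : ℝ) ≤ k := Nat.cast_nonneg k
    linarith
  refine ⟨c * (η / 2 / 32), by positivity, ?_⟩
  have hT : Tendsto (fun p : ℕ => (p : ℝ)) atTop atTop := tendsto_natCast_atTop_atTop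
  have e3 : ∀ᶠ x : ℝ in atTop, max Y₀ 2 ≤ x ^ (η / 2) :=
    (tendsto_rpow_atTop (by positivity)).eventually_ge_atTop _
  filter_upwards [resid2_gen k δ hδ hδ1, hT.eventually e3,
    hT.eventually (ff_compare (η / 2) (by positivity) (by linarith)), eventually_ge_atTop 2]
    with p hgen hp3 hp4 hp5
  intro hpF α S F M H E₀ hE₀ hS hE hH hV J A hJ hA
  have hp : p.Prime := hpF.out
  have hpr1 : (1 : ℝ) < p := by exact_mod_cast hp.one_lt
  have hpr0 : (0 : ℝ) < p := by linarith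
  obtain ⟨y, hy⟩ : ∃ y : ℝ, y = (p : ℝ) ^ (η / 2) := ⟨_, rfl⟩
  have hhalf : (p : ℝ) ^ (η / 2) * (p : ℝ) ^ (η / 2) = (p : ℝ) ^ η := by
    rw [← Real.rpow_add hpr0]; congr 1; ring
  have hlogy : Real.log y = η / 2 * Real.log p := by rw [hy, Real.log_rpow hpr0]
  have hlogp : 0 ≤ Real.log p := Real.log_nonneg hpr1.le
  have hffy : η / 2 / 32 * ff p ≤ ff y := by
    rw [hy]
    exact (hp4.2 ((p : ℝ) ^ (η / 2)) le_rfl (by
      calc (p : ℝ) ^ (η / 2) ≤ (p : ℝ) ^ (2 : ℝ) :=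
            Real.rpow_le_rpow_of_exponent_le hpr1.le (by linarith)
        _ = (p : ℝ) ^ 2 := by norm_num)).1
  rw [← hy] at hp3 hhalf
  have hy2 : 2 ≤ y := (le_max_right _ _).trans hp3
  have hyY : Y₀ ≤ y := (le_max_left _ _).trans hp3
  refine hgen α S F M H E₀ hE₀ hS hE hH hV (GoodOdd J A ((p : ℝ) ^ δ)) ?_
  intro t ht
  rw [← hη] at ht
  have hyZ : y ≤ (⌊(p : ℝ) ^ η⌋₊ : ℝ) := by
    have h1 : (p : ℝ) ^ η < (⌊(p : ℝ) ^ η⌋₊ : ℝ) + 1 := Nat.lt_floor_add_one _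
    rw [← hhalf] at h1 ⊢
    nlinarith
  obtain ⟨x, hx, hx2⟩ := hopp y hyY J A (by
      rw [hlogy]
      refine hJ.trans ?_
      have h1 : 0 ≤ c * (η / 2) * Real.log p := by positivity
      nlinarith)
    (by
      refine hA.trans ?_
      calc c * (η / 2 / 32) * ff p = c * (η / 2 / 32 * ff p) := by ring
        _ ≤ c * ff y := mul_le_mul_of_nonneg_left hffy hc.le)
    _ hyZ α t _ ht
  refine ⟨x, hx, ?_⟩
  intro i t' ht' σ h1 h2 a ha hsq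
  obtain ⟨l, hl, hl1, hl2⟩ := hx2 i t' ht' σ h1 h2 a ha hsq
  refine ⟨l, hl, hl1.trans ?_, hl2⟩
  rw [hy, ← Real.rpow_mul hpr0.le]
  exact Real.rpow_le_rpow_of_exponent_le hpr1.le (by linarith)

/-! ### orbits -/

open Pool.Agent.N286.DE (F_bound S_bound)

lemma pow_one_entry {R : Type*} [CommRing R] (A : Matrix (Fin 1) (Fin 1) R) (x : ℕ) :
    (A ^ x) 0 0 = (A 0 0) ^ x := by
  induction x with
  | zero => simp
  | succ x ih =>
    rw [pow_succ, pow_succ, mul_apply, Fin.sum_univ_one, ih]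

lemma pow_one_eq {R : Type*} [CommRing R] (A : Matrix (Fin 1) (Fin 1) R) (x : ℕ)
    (h : (A 0 0) ^ x = 1) : A ^ x = 1 := by
  ext i j
  have hi : i = 0 := Subsingleton.elim _ _
  have hj : j = 0 := Subsingleton.elim _ _
  subst hi
  subst hj
  rw [pow_one_entry, h, one_apply_eq]

lemma e_zero' : Pool.Agent.Helper170.Weyl.e 0 = 1 := Pool.Agent.N286.DE.e_zero

lemma F_one {p : ℕ} [Fact p.Prime] (A : Matrix (Fin 1) (Fin 1) (ZMod p)) (T c : ℕ)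
    (h u : Fin 1 → ZMod p) : Pool.Agent.N286.DE.F A T c h u =
      Pool.Agent.N286.DE.S (A 0 0) T c (h 0 * u 0) := by
  unfold Pool.Agent.N286.DE.F Pool.Agent.N286.DE.S
  refine sum_congr rfl fun x _ => ?_
  have h1 : (A ^ x *ᵥ u) 0 = (A ^ x) 0 0 * u 0 := by
    rw [mulVec, dotProduct, Fin.sum_univ_one]
  have h2 : h ⬝ᵥ (A ^ x *ᵥ u) = h 0 * (A ^ x *ᵥ u) 0 := by
    rw [dotProduct, Fin.sum_univ_one]
  rw [h2, h1, pow_one_entry]
  congr 2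
  ring

/-- the complete sums over an orbit -/
lemma orbit_le {p k : ℕ} [Fact p.Prime] (A : Matrix (Fin k) (Fin k) (ZMod p)) (T : ℕ) (hT : 1 ≤ T)
    (hA : A ^ T = 1) (hfree : ∀ x, 0 < x → x < T → IsUnit (A ^ x - 1)) (v w : Fin k → ZMod p)
    (hv : v ≠ 0) (h : Fin k → ZMod p) (hh : h ≠ 0) :
    ‖∑ x ∈ range T, (ZMod.stdAddChar (∑ i, h i * (A ^ x *ᵥ v + w) i) : ℂ)‖ ≤ (p : ℝ) ^ ((k : ℝ) / 2) ∧
    (∀ hk : k = 1, T ^ 4 < p ^ 3 →
      ‖∑ x ∈ range T, (ZMod.stdAddChar (∑ i, h i * (A ^ x *ᵥ v + w) i) : ℂ)‖ ≤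
        2 * ((p : ℝ) ^ (1 / 8 : ℝ) * (T : ℝ) ^ (2 / 3 : ℝ))) := by
  have h1 : ‖∑ x ∈ range T, (ZMod.stdAddChar (∑ i, h i * (A ^ x *ᵥ v + w) i) : ℂ)‖ =
      ‖Pool.Agent.N286.DE.F A T 0 h v‖ := by
    unfold Pool.Agent.N286.DE.F
    have h2 : ∑ x ∈ range T, (ZMod.stdAddChar (∑ i, h i * (A ^ x *ᵥ v + w) i) : ℂ) =
        ZMod.stdAddChar (h ⬝ᵥ w) * ∑ x ∈ range T,
          Pool.Agent.Helper170.Weyl.e (((0 : ℕ) : ℝ) * x / T) *
            ZMod.stdAddChar (N := p) (h ⬝ᵥ (A ^ x *ᵥ v)) := by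
      rw [mul_sum]
      refine sum_congr rfl fun x _ => ?_
      rw [Nat.cast_zero, zero_mul, zero_div, e_zero', one_mul, ← AddChar.map_add_eq_mul]
      congr 1
      rw [add_comm, ← dotProduct_add]
      rfl
    rw [h2, norm_mul, AddChar.norm_apply, one_mul]
  refine ⟨?_, ?_⟩
  · rw [h1]
    exact F_bound A T 0 h hT hA hfree hh v hv
  · intro hk hTp
    subst hk
    rw [h1, F_one]
    have hg : (A 0 0) ^ T = 1 := by
      rw [← pow_one_entry, hA, one_apply_eq]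
    have hgf : ∀ x, 0 < x → x < T → (A 0 0) ^ x ≠ 1 := by
      intro x hx hxT h1
      have h3 := hfree x hx hxT
      rw [pow_one_eq A x h1, sub_self] at h3
      exact not_isUnit_zero h3
    refine S_bound (A 0 0) T 0 hT hg hgf hTp _ ?_
    have h0 : h 0 ≠ 0 := by
      intro h0
      apply hh
      funext i
      rw [Subsingleton.elim i 0, h0]
      rfl
    have v0 : v 0 ≠ 0 := by
      intro v0
      apply hv
      funext i
      rw [Subsingleton.elim i 0, v0]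
      rfl
    exact mul_ne_zero h0 v0

end Pool.Agent.N725.SQ
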