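import Pool.Agent.N725.SQ.Odd

set_option autoImplicit false
set_option linter.unusedSectionVars false
set_option linter.unusedVariables false

/-! # Consecutive odd squares at the orbits of matrices modulo a prime: the main theorem -/

namespace Pool.Agent.N725.SQ

open Finset Filter Matrix
open Pool.Agent.W147.PS (ff)

open scoped Classical

theorem orbit_odd (k : ℕ) (hk : 1 ≤ k) (δ : ℝ) (hδ : 0 < δ) (hδ1 : δ ≤ 1) :
    ∃ κ : ℝ, 0 < κ ∧ ∀ᶠ p : ℕ in atTop, ∀ [Fact p.Prime],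
      ∀ (A : Matrix (Fin k) (Fin k) (ZMod p)) (T : ℕ), 1 ≤ T → A ^ T = 1 →
      (∀ x : ℕ, 0 < x → x < T → IsUnit (A ^ x - 1)) →
      ∀ v w : Fin k → ZMod p, v ≠ 0 →
      ∀ B : ℝ, (B = (p : ℝ) ^ ((k : ℝ) / 2) ∨
        (k = 1 ∧ B = (p : ℝ) ^ (1 / 8 : ℝ) * (T : ℝ) ^ (2 / 3 : ℝ))) →
      ∀ (M : Fin k → ℤ) (L : Fin k → ℕ), (∀ i, (p : ℝ) ^ δ ≤ L i ∧ L i ≤ p) →
      B * (p : ℝ) ^ (k + δ) ≤ (∏ i, (L i : ℝ)) * T →
      ∀ (J D : ℕ), (J : ℝ) ^ 2 ≤ κ * Real.log p → (D : ℝ) * J ≤ κ * ff p →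
      (∏ i, (L i : ℝ)) * T / (p : ℝ) ^ (k + δ) ≤
        (((range T).filter (fun x => (∀ i, M i < rep (M i) (L i) ((A ^ x *ᵥ v + w) i) ∧
          rep (M i) (L i) ((A ^ x *ᵥ v + w) i) ≤ M i + L i ∧
          ((rep (M i) (L i) ((A ^ x *ᵥ v + w) i) : ℤ) : ZMod p) = (A ^ x *ᵥ v + w) i) ∧
        ∀ i, ∀ t : ℕ, t < J →
          (p : ℝ) ^ δ < |((rep (M i) (L i) ((A ^ x *ᵥ v + w) i) + t : ℤ) : ℝ)| →
          ∀ σ : ℤ, -1 ≤ σ → σ ≤ 1 → ∀ q : ℕ, q.Prime →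
          (D : ℤ) < |(q : ℤ) - (2 * (rep (M i) (L i) ((A ^ x *ᵥ v + w) i) + t) + σ) ^ 2|)).card : ℝ) := by
  obtain ⟨κ, hκ, hev⟩ := resid2_odd k hk (δ / 2) (by positivity) (by linarith)
  refine ⟨κ, hκ, ?_⟩
  have hTd : Tendsto (fun p : ℕ => (p : ℝ)) atTop atTop := tendsto_natCast_atTop_atTop
  filter_upwards [hev, eventually_ge_atTop 2, hTd.eventually (ev_A κ (δ / 2) (by positivity)),
    hTd.eventually ((tendsto_rpow_atTop (show (0 : ℝ) < δ / 2 by positivity)).eventually_ge_atTop 2)]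
    with p hp1 hp3 hpA hp2
  intro hpF A T hT1 hAT hfree v w hv B hB M L hL hV J D hJ hD
  have hp : p.Prime := hpF.out
  have hpr1 : (1 : ℝ) < p := by exact_mod_cast hp.one_lt
  have hpr0 : (0 : ℝ) < p := by linarith
  have hmono : ∀ a b : ℝ, a ≤ b → (p : ℝ) ^ a ≤ (p : ℝ) ^ b := fun a b hab =>
    Real.rpow_le_rpow_of_exponent_le hpr1.le hab
  have hPr0 : 0 ≤ ∏ i, (L i : ℝ) := Finset.prod_nonneg fun i _ => Nat.cast_nonneg _
  have hTR : (1 : ℝ) ≤ T := by exact_mod_cast hT1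
  have hT0 : (0 : ℝ) < T := by linarith
  have hB0 : 0 ≤ B := by
    rcases hB with h | ⟨-, h⟩
    · rw [h]; positivity
    · rw [h]; positivity
  have hcard : ((range T).card : ℝ) = T := by rw [card_range]
  have hsum : ∀ h : Fin k → ZMod p, h ≠ 0 →
      ‖∑ x ∈ range T, (ZMod.stdAddChar (∑ i, h i * (A ^ x *ᵥ v + w) i) : ℂ)‖ ≤ 2 * B := by
    intro h hh
    obtain ⟨b1, b2⟩ := orbit_le A T hT1 hAT hfree v w hv h hh
    rcases hB with hB | ⟨hk1, hB⟩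
    · rw [← hB] at b1
      linarith
    · by_cases hTp : T ^ 4 < p ^ 3
      · rw [hB]
        exact b2 hk1 hTp
      · push Not at hTp
        refine b1.trans ?_
        have h3 : (1 : ℝ) ≤ (p : ℝ) ^ (1 / 8 : ℝ) := Real.one_le_rpow hpr1.le (by norm_num)
        have h4 : (p : ℝ) ^ (1 / 2 : ℝ) ≤ (T : ℝ) ^ (2 / 3 : ℝ) := by
          have h5 : ((p : ℝ) ^ 3) ^ (1 / 6 : ℝ) ≤ ((T : ℝ) ^ 4) ^ (1 / 6 : ℝ) := by
            apply Real.rpow_le_rpow (by positivity) _ (by norm_num)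
            exact_mod_cast hTp
          rw [← Real.rpow_natCast, ← Real.rpow_natCast, ← Real.rpow_mul hpr0.le,
            ← Real.rpow_mul hT0.le] at h5
          norm_num at h5 ⊢
          exact h5
        have h6 : (p : ℝ) ^ ((k : ℝ) / 2) = (p : ℝ) ^ (1 / 2 : ℝ) := by
          rw [hk1]
          norm_num
        rw [h6]
        have h7 : (0 : ℝ) ≤ (T : ℝ) ^ (2 / 3 : ℝ) := by positivity
        nlinarith
  have hpk : (p : ℝ) ^ (k + δ : ℝ) = (p : ℝ) ^ k * ((p : ℝ) ^ (δ / 2) * (p : ℝ) ^ (δ / 2)) := by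
    rw [← Real.rpow_natCast, ← Real.rpow_add hpr0, ← Real.rpow_add hpr0]
    congr 1
    ring
  have hmain := hp1 ℕ (range T) (fun i x => (A ^ x *ᵥ v + w) i) M L (2 * B) (by positivity)
    ⟨0, by rw [mem_range]; omega⟩ hsum
    (fun i => ⟨(hmono _ _ (by linarith)).trans (hL i).1, (hL i).2⟩)
    (by
      rw [hcard, le_div_iff₀ (by positivity)]
      refine le_trans ?_ hV
      rw [hpk]
      calc 2 * B * (p : ℝ) ^ (δ / 2) * (p : ℝ) ^ k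
          = B * ((p : ℝ) ^ k * (2 * (p : ℝ) ^ (δ / 2))) := by ring
        _ ≤ B * ((p : ℝ) ^ k * ((p : ℝ) ^ (δ / 2) * (p : ℝ) ^ (δ / 2))) := by gcongr)
    J D hJ hD
  rw [hcard] at hmain
  have hlow : (∏ i, (L i : ℝ)) * T / (p : ℝ) ^ (k + δ) ≤
      (∏ i, (L i : ℝ)) * T / (p : ℝ) ^ k * (p : ℝ) ^ (-(δ / 2)) := by
    have h1 : (1 : ℝ) / (p : ℝ) ^ (k + δ) ≤ 1 / (p : ℝ) ^ k * (p : ℝ) ^ (-(δ / 2)) := by
      rw [one_div, ← Real.rpow_neg hpr0.le, one_div, ← Real.rpow_natCast, ← Real.rpow_neg hpr0.le,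
        ← Real.rpow_add hpr0]
      exact hmono _ _ (by linarith)
    calc (∏ i, (L i : ℝ)) * T / (p : ℝ) ^ (k + δ)
        = ((∏ i, (L i : ℝ)) * T) * (1 / (p : ℝ) ^ (k + δ)) := by ring
      _ ≤ ((∏ i, (L i : ℝ)) * T) * (1 / (p : ℝ) ^ k * (p : ℝ) ^ (-(δ / 2))) :=
          mul_le_mul_of_nonneg_left h1 (mul_nonneg hPr0 hT0.le)
      _ = _ := by ring
  refine (hlow.trans hmain).trans ?_
  rw [Nat.cast_le]
  apply Finset.card_le_card
  intro x hx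
  rw [mem_filter] at hx ⊢
  refine ⟨hx.1, hx.2.1, fun i t ht hbig σ h1 h2 q hq => ?_⟩
  have hJpos : (1 : ℝ) ≤ J := by
    have : 1 ≤ J := by omega
    exact_mod_cast this
  have hA1 : (D : ℝ) + 2 ≤ (p : ℝ) ^ (δ / 2) := by
    have h3 : (D : ℝ) ≤ D * J := by
      have : (0 : ℝ) ≤ D := Nat.cast_nonneg _
      nlinarith
    linarith
  refine Pool.Agent.N542.PV.iso_of_good hA1 ?_ (fun a ha hsq => hx.2.2 i t ht σ h1 h2 a ha hsq) q hq
  have h5 : (p : ℝ) ^ (δ / 2) ≤ (p : ℝ) ^ δ := hmono _ _ (by linarith)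
  obtain ⟨m, hm⟩ : ∃ m : ℤ, m = rep (M i) (L i) ((A ^ x *ᵥ v + w) i) + t := ⟨_, rfl⟩
  rw [← hm] at hbig ⊢
  have h6 : |m| * 2 - 1 ≤ |2 * m + σ| := by
    rcases le_total 0 m with h0 | h0
    · rw [abs_of_nonneg h0]
      have := le_abs_self (2 * m + σ)
      linarith
    · rw [abs_of_nonpos h0]
      have := neg_le_abs (2 * m + σ)
      linarith
  have h7 : |(m : ℝ)| * 2 - 1 ≤ |((2 * m + σ : ℤ) : ℝ)| := by exact_mod_cast h6
  linarith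

end Pool.Agent.N725.SQ
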