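import Pool.Agent.N725.SQ.Main

set_option autoImplicit false
set_option linter.unusedSectionVars false
set_option linter.unusedVariables false

/-! # The end points of Oppermann's intervals for well distributed families of integer vectors -/

namespace Pool.Agent.N725.SQ

open Finset Filter
open Pool.Agent.W147.PS (ff ff_compare ev_pow)
open Pool.Agent.N542.PU (WellDist)
open Pool.Agent.N542.PV (AdmSq GoodSq rect_vec)

/-- the numbers `x² + σ x + a`, `x = v i + t`, `0 ≤ t < J`, `σ ∈ {-1, 0, 1}`, `|a| ≤ A`, have a prime factor `≤ y`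
unless `σ² - 4 a` is a square -/
def GoodOpp {k : ℕ} (J A : ℕ) (y : ℝ) (v : Fin k → ℤ) : Prop :=
  ∀ i, ∀ t : ℕ, t < J → ∀ σ : ℤ, -1 ≤ σ → σ ≤ 1 → ∀ a : ℤ, |a| ≤ A → ¬ IsSquare (σ ^ 2 - 4 * a) →
    ∃ l : ℕ, l.Prime ∧ (l : ℝ) ≤ y ∧ (l : ℤ) ∣ (v i + t) ^ 2 + σ * (v i + t) + a

/-- the product of the odd primes up to `N` -/
def oddP (N : ℕ) : ℕ := ∏ l ∈ (range (N + 1)).filter (fun l => l.Prime ∧ l ≠ 2), l

lemma oddP_odd (N : ℕ) : Odd (oddP N) := by
  unfold oddP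
  apply Finset.prod_induction _ Odd (fun a b ha hb => ha.mul hb) odd_one
  intro l hl
  rw [mem_filter] at hl
  exact hl.2.1.odd_of_ne_two hl.2.2

lemma dvd_oddP {N l : ℕ} (hl : l.Prime) (h2 : l ≠ 2) (hN : l ≤ N) : l ∣ oddP N := by
  unfold oddP
  apply Finset.dvd_prod_of_mem
  rw [mem_filter, mem_range]
  exact ⟨by omega, hl, h2⟩

/-- the auxiliary vectors -/
def aux {k : ℕ} {α : Type} (M : ℤ) (w : α → Fin k → ℤ) (x : α × (Fin k → Fin 2)) : Fin k → ℤ :=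
  fun i => 2 * w x.1 i - 1 + M - (x.2 i : ℕ)

open scoped Classical in
lemma aux_wellDist {k Z : ℕ} {α : Type} {t : Finset α} {w : α → Fin k → ℤ} (h : Fam k Z t w)
    {Y : ℝ} (hY0 : 0 < Y) (hY : Y ≤ Z) (M : ℤ) (hM : Odd M) :
    WellDist Y (t ×ˢ (univ : Finset (Fin k → Fin 2))) (aux M w) := by
  intro q hq hqY ρ
  have hqZ : q ≤ Z := by
    have : (q : ℝ) ≤ Z := hqY.trans hY
    exact_mod_cast this
  have hcardP : (((t ×ˢ (univ : Finset (Fin k → Fin 2))).card : ℕ) : ℝ) = t.card * (2 : ℝ) ^ k := by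
    rw [Finset.card_product, card_univ, Fintype.card_fun, Fintype.card_fin, Fintype.card_fin]
    push_cast
    rfl
  have hZ1 : 1 ≤ Z := hq.trans hqZ
  have hZ0 : (0 : ℝ) < Z := by exact_mod_cast hZ1
  have hE : (t.card : ℝ) / (Z : ℝ) ^ (k + 1) * (2 : ℝ) ^ k ≤
      (((t ×ˢ (univ : Finset (Fin k → Fin 2))).card : ℕ) : ℝ) * Y ^ (-((k : ℝ) + 1)) := by
    rw [hcardP, div_eq_mul_inv]
    have h1 : ((Z : ℝ) ^ (k + 1))⁻¹ ≤ Y ^ (-((k : ℝ) + 1)) := by
      rw [Real.rpow_neg hY0.le]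
      apply inv_anti₀ (Real.rpow_pos_of_pos hY0 _)
      have e : ((k : ℝ) + 1) = ((k + 1 : ℕ) : ℝ) := by push_cast; ring
      rw [e, Real.rpow_natCast]
      exact pow_le_pow_left₀ hY0.le hY _
    calc (t.card : ℝ) * ((Z : ℝ) ^ (k + 1))⁻¹ * (2 : ℝ) ^ k =
        (t.card : ℝ) * (2 : ℝ) ^ k * ((Z : ℝ) ^ (k + 1))⁻¹ := by ring
      _ ≤ _ := mul_le_mul_of_nonneg_left h1 (by positivity)
  refine le_trans ?_ hE
  -- fibres over `ε`
  have hfib : (((t ×ˢ (univ : Finset (Fin k → Fin 2))).filter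
      (fun x => ∀ j, (q : ℤ) ∣ aux M w x j - ρ j)).card : ℝ) =
      ∑ ε : Fin k → Fin 2, ((t.filter (fun x => ∀ j, (q : ℤ) ∣ aux M w (x, ε) j - ρ j)).card : ℝ) := by
    rw [Finset.card_filter, Finset.sum_product_right]
    push_cast
    refine Finset.sum_congr rfl fun ε _ => ?_
    rw [Finset.card_filter]
    push_cast
    rfl
  rw [hfib, hcardP]
  have hqR : (0 : ℝ) < q := by exact_mod_cast hq
  rcases Nat.even_or_odd q with hqe | hqo
  · -- even modulus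
    obtain ⟨q₁, hq₁⟩ := hqe
    have hq₁' : q = 2 * q₁ := by omega
    have hq₁1 : 1 ≤ q₁ := by omega
    obtain ⟨ε₀, hε₀⟩ : ∃ ε₀ : Fin k → Fin 2, ∀ j, ((ε₀ j : ℕ) : ℤ) = ρ j % 2 := by
      refine ⟨fun j => ⟨(ρ j % 2).toNat, by omega⟩, fun j => ?_⟩
      simp only
      omega
    obtain ⟨M', hM'⟩ := hM
    have hzero : ∀ ε : Fin k → Fin 2, ε ≠ ε₀ →
        t.filter (fun x => ∀ j, (q : ℤ) ∣ aux M w (x, ε) j - ρ j) = ∅ := by
      intro ε hε
      apply Finset.filter_eq_empty_iff.2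
      intro x _ hx
      apply hε
      funext j
      apply Fin.ext
      have h1 := hx j
      have h2 : (2 : ℤ) ∣ aux M w (x, ε) j - ρ j := dvd_trans ⟨(q₁ : ℤ), by rw [hq₁']; push_cast; ring⟩ h1
      have h3 := hε₀ j
      have h4 : ((ε j : ℕ) : ℤ) < 2 := by exact_mod_cast (ε j).isLt
      have h5 : ((ε j : ℕ) : ℤ) = ((ε₀ j : ℕ) : ℤ) := by
        simp only [aux] at h2
        omega
      exact_mod_cast h5
    rw [Finset.sum_eq_single ε₀ (fun ε _ hε => by rw [hzero ε hε]; simp) (fun h => absurd (mem_univ _) h)]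
    have heq : t.filter (fun x => ∀ j, (q : ℤ) ∣ aux M w (x, ε₀) j - ρ j) =
        t.filter (fun x => ∀ j, (q₁ : ℤ) ∣ w x j - (ρ j / 2 - M' + (ρ j % 2))) := by
      apply Finset.filter_congr
      intro x _
      refine forall_congr' fun j => ?_
      have h3 := hε₀ j
      have e : aux M w (x, ε₀) j - ρ j = 2 * (w x j - (ρ j / 2 - M' + (ρ j % 2))) := by
        simp only [aux]
        have := Int.mul_ediv_add_emod (ρ j) 2
        rw [h3, hM']
        linarith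
      rw [e, hq₁']
      push_cast
      exact mul_dvd_mul_iff_left (by norm_num)
    rw [heq]
    have h1 := h.2 q₁ hq₁1 (by omega) (fun j => ρ j / 2 - M' + (ρ j % 2))
    have e : (t.card : ℝ) * (2 : ℝ) ^ k / (q : ℝ) ^ k = t.card / (q₁ : ℝ) ^ k := by
      rw [hq₁']
      have : (0 : ℝ) < q₁ := by exact_mod_cast hq₁1
      push_cast
      rw [mul_pow]
      field_simp
    rw [e]
    refine h1.trans ?_
    have h2 : (1 : ℝ) ≤ (2 : ℝ) ^ k := one_le_pow₀ (by norm_num)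
    have h3 : 0 ≤ (t.card : ℝ) / (Z : ℝ) ^ (k + 1) := by positivity
    nlinarith
  · -- odd modulus
    obtain ⟨q₁, hq₁⟩ := hqo
    have hone : ∀ ε : Fin k → Fin 2,
        |((t.filter (fun x => ∀ j, (q : ℤ) ∣ aux M w (x, ε) j - ρ j)).card : ℝ) - t.card / (q : ℝ) ^ k| ≤
          t.card / (Z : ℝ) ^ (k + 1) := by
      intro ε
      have heq : t.filter (fun x => ∀ j, (q : ℤ) ∣ aux M w (x, ε) j - ρ j) =
          t.filter (fun x => ∀ j, (q : ℤ) ∣ w x j - (ρ j + 1 - M + (ε j : ℕ)) * (q₁ + 1)) := by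
        apply Finset.filter_congr
        intro x _
        refine forall_congr' fun j => ?_
        have hqZ : (q : ℤ) = 2 * q₁ + 1 := by exact_mod_cast hq₁
        constructor
        · intro h1
          have e : w x j - (ρ j + 1 - M + (ε j : ℕ)) * (q₁ + 1) =
              (aux M w (x, ε) j - ρ j) * (q₁ + 1) - q * w x j := by
            simp only [aux]
            rw [hqZ]
            ring
          rw [e]
          exact dvd_sub (Dvd.dvd.mul_right h1 _) (dvd_mul_right _ _)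
        · intro h1
          have e : aux M w (x, ε) j - ρ j =
              (w x j - (ρ j + 1 - M + (ε j : ℕ)) * (q₁ + 1)) * 2 +
                q * (ρ j + 1 - M + (ε j : ℕ)) := by
            simp only [aux]
            rw [hqZ]
            ring
          rw [e]
          exact dvd_add (Dvd.dvd.mul_right h1 _) (dvd_mul_right _ _)
      rw [heq]
      exact h.2 q hq hqZ _
    have e : (t.card : ℝ) * (2 : ℝ) ^ k / (q : ℝ) ^ k = ∑ ε : Fin k → Fin 2, (t.card : ℝ) / (q : ℝ) ^ k := by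
      rw [Finset.sum_const, card_univ, Fintype.card_fun, Fintype.card_fin, Fintype.card_fin, nsmul_eq_mul]
      push_cast
      ring
    rw [e, ← Finset.sum_sub_distrib]
    refine (Finset.abs_sum_le_sum_abs _ _).trans ?_
    refine (Finset.sum_le_sum fun ε _ => hone ε).trans ?_
    rw [Finset.sum_const, card_univ, Fintype.card_fun, Fintype.card_fin, Fintype.card_fin, nsmul_eq_mul]
    push_cast
    exact le_of_eq (by ring)

lemma ff_big (C : ℝ) : ∀ᶠ Y : ℝ in atTop, C * Real.log Y ≤ ff Y := by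
  have t1 : Tendsto Real.log atTop atTop := Real.tendsto_log_atTop
  have t2 : Tendsto (fun M : ℝ => Real.log (Real.log M)) atTop atTop := t1.comp t1
  have t3 : Tendsto (fun M : ℝ => Real.log (Real.log (Real.log M))) atTop atTop := t1.comp t2
  have t4 : Tendsto (fun M : ℝ => Real.log (Real.log (Real.log (Real.log M)))) atTop atTop :=
    t1.comp t3
  have h5 : (fun Y : ℝ => (Real.log Y) ^ (2:ℝ)) =o[atTop] (fun Y : ℝ => Y ^ (1:ℝ)) :=
    isLittleO_log_rpow_rpow_atTop 2 one_pos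
  have h6 := t2.eventually (h5.def one_pos)
  filter_upwards [t1.eventually_ge_atTop 1, t2.eventually_ge_atTop (max C 1), t3.eventually_ge_atTop 1,
    t4.eventually_ge_atTop 1, h6] with Z h1 h2 h3 h4 h6
  obtain ⟨L1, hL1⟩ : ∃ x, x = Real.log Z := ⟨_, rfl⟩
  rw [← hL1] at h1 h2 h3 h4 h6 ⊢
  obtain ⟨L2, hL2⟩ : ∃ x, x = Real.log L1 := ⟨_, rfl⟩
  rw [← hL2] at h2 h3 h4 h6
  obtain ⟨L3, hL3⟩ : ∃ x, x = Real.log L2 := ⟨_, rfl⟩
  rw [← hL3] at h3 h4 h6
  obtain ⟨L4, hL4⟩ : ∃ x, x = Real.log L3 := ⟨_, rfl⟩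
  rw [← hL4] at h4
  have hC : C ≤ L2 := (le_max_left _ _).trans h2
  have h2' : 1 ≤ L2 := (le_max_right _ _).trans h2
  have hff : ff Z = L1 * L2 ^ 2 * L4 / L3 ^ 2 := by
    rw [ff, ← hL1, ← hL2, ← hL3, ← hL4]
  rw [Real.rpow_two, Real.rpow_one, Real.norm_eq_abs, Real.norm_eq_abs, one_mul,
    abs_of_nonneg (by positivity), abs_of_nonneg (by linarith)] at h6
  rw [hff, le_div_iff₀ (by positivity)]
  have e1 : C * L3 ^ 2 ≤ L2 * L2 := by
    calc C * L3 ^ 2 ≤ L2 * L3 ^ 2 := mul_le_mul_of_nonneg_right hC (by positivity)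
      _ ≤ L2 * L2 := mul_le_mul_of_nonneg_left h6 (by linarith)
  calc C * L1 * L3 ^ 2 = L1 * (C * L3 ^ 2) := by ring
    _ ≤ L1 * (L2 * L2) := mul_le_mul_of_nonneg_left e1 (by linarith)
    _ = L1 * L2 ^ 2 * 1 := by ring
    _ ≤ L1 * L2 ^ 2 * L4 := mul_le_mul_of_nonneg_left h4 (by positivity)

/-- **Oppermann's end points for families.** -/
theorem opp_vec (k : ℕ) (hk : 1 ≤ k) : ∃ c : ℝ, 0 < c ∧ ∃ Y₀ : ℝ, ∀ Y : ℝ, Y₀ ≤ Y →
    ∀ (J A : ℕ), (J : ℝ) ^ 2 ≤ c * Real.log Y → (A : ℝ) * J ≤ c * ff Y →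
    ∀ (Z : ℕ), Y ≤ Z → ∀ (α : Type) (t : Finset α) (w : α → Fin k → ℤ), Fam k Z t w →
      ∃ x ∈ t, GoodOpp J A (Y ^ (1 / 10 : ℝ)) (w x) := by
  obtain ⟨c, hc, Y₀, hrect⟩ := rect_vec k hk 0
  obtain ⟨c', hc'⟩ : ∃ c' : ℝ, c' = min 1 (c / 64) := ⟨_, rfl⟩
  have hc'0 : 0 < c' := by rw [hc']; positivity
  have hc'1 : c' ≤ 1 := by rw [hc']; exact min_le_left _ _
  have hc'c : c' ≤ c / 64 := by rw [hc']; exact min_le_right _ _
  have t1 : Tendsto (fun Y : ℝ => Real.log Y) atTop atTop := Real.tendsto_log_atTop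
  have hffbig : ∀ᶠ Y : ℝ in atTop, 8 / c * Real.log Y ≤ ff Y := ff_big (8 / c)
  obtain ⟨Y₁, hY₁⟩ := eventually_atTop.1 ((t1.eventually_ge_atTop (max 1 (16 / c))).and
    (hffbig.and (eventually_ge_atTop 2)))
  refine ⟨c', hc'0, max Y₀ Y₁, ?_⟩
  intro Y hY J A hJ hA Z hYZ α t w hfam
  obtain ⟨hl, hff, hY2⟩ := hY₁ Y ((le_max_right _ _).trans hY)
  have hY0 : (0 : ℝ) < Y := by linarith
  have hl1 : 1 ≤ Real.log Y := (le_max_left _ _).trans hl
  have hl2 : 16 / c ≤ Real.log Y := (le_max_right _ _).trans hl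
  rw [div_le_iff₀ hc] at hl2
  rcases Nat.eq_zero_or_pos J with hJ0 | hJpos
  · obtain ⟨x, hx⟩ := hfam.1
    refine ⟨x, hx, ?_⟩
    intro i t' ht'
    omega
  have hJ1 : (1 : ℝ) ≤ J := by exact_mod_cast hJpos
  have hJ2 : (J : ℝ) ≤ Real.log Y := by nlinarith
  have hA0 : (0 : ℝ) ≤ A := Nat.cast_nonneg _
  have hff0 : 0 ≤ ff Y := le_trans (by positivity) hff
  have hff' : 8 * Real.log Y ≤ c * ff Y := by
    have := mul_le_mul_of_nonneg_left hff hc.le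
    have e : c * (8 / c * Real.log Y) = 8 * Real.log Y := by field_simp
    linarith
  obtain ⟨x, hx, hgood⟩ := hrect Y ((le_max_left _ _).trans hY) (4 * A + 1) (Ico (0 : ℤ) ((2 * J + 2 : ℕ) : ℤ))
    (by
      right
      refine ⟨2 * J + 2, rfl, ?_, Or.inr ?_⟩
      · push_cast
        have h1 : (J : ℝ) ^ 2 ≤ c / 64 * Real.log Y :=
          hJ.trans (mul_le_mul_of_nonneg_right hc'c (by linarith))
        nlinarith
      · push_cast
        have h1 : (A : ℝ) * J ≤ c / 64 * ff Y :=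
          hA.trans (mul_le_mul_of_nonneg_right hc'c hff0)
        have h2 : (A : ℝ) ≤ A * J := by nlinarith
        nlinarith)
    (α × (Fin k → Fin 2)) (t ×ˢ univ) (aux ((oddP ⌊Y⌋₊ : ℕ) : ℤ) w)
    (hfam.1.product univ_nonempty)
    (aux_wellDist hfam hY0 hYZ _ (by exact_mod_cast oddP_odd ⌊Y⌋₊))
  obtain ⟨x, ε⟩ := x
  rw [Finset.mem_product] at hx
  refine ⟨x, hx.1, ?_⟩
  intro i t' ht' σ hσ1 hσ2 a ha hsq
  -- the number `X = 2 x + σ = 2 n - 1 + j`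
  obtain ⟨j, hj⟩ : ∃ j : ℤ, j = 2 * t' + σ + 1 := ⟨_, rfl⟩
  have hε : ((ε i : ℕ) : ℤ) < 2 := by exact_mod_cast (ε i).isLt
  have hε0 : 0 ≤ ((ε i : ℕ) : ℤ) := Int.natCast_nonneg _
  have ht'' : (t' : ℤ) < J := by exact_mod_cast ht'
  obtain ⟨M', hM'⟩ : Odd ((oddP ⌊Y⌋₊ : ℕ) : ℤ) := by exact_mod_cast oddP_odd ⌊Y⌋₊
  have hσsq : σ ^ 2 = σ * σ := sq σ
  have hσcases : σ = -1 ∨ σ = 0 ∨ σ = 1 := by omega
  have hσ01 : 0 ≤ σ ^ 2 ∧ σ ^ 2 ≤ 1 := by rcases hσcases with h | h | h <;> rw [h] <;> norm_num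
  obtain ⟨l, hl, hl1', hl2'⟩ := hgood i (j + (ε i : ℕ)) (by
      rw [mem_Ico]
      push_cast
      constructor <;> omega) (4 * a - σ ^ 2) (by
      push_cast
      have h1 := abs_le.1 ha
      rw [abs_le]
      constructor <;> linarith [h1.1, h1.2, hσ01.1, hσ01.2]) (by
      have e : -(4 * a - σ ^ 2) = σ ^ 2 - 4 * a := by ring
      rw [e]
      exact hsq)
  refine ⟨l, hl, hl1', ?_⟩
  have hv : aux ((oddP ⌊Y⌋₊ : ℕ) : ℤ) w (x, ε) i + (j + (ε i : ℕ)) =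
      (2 * (w x i + t') + σ) + ((oddP ⌊Y⌋₊ : ℕ) : ℤ) := by
    simp only [aux]
    rw [hj]
    ring
  rw [hv] at hl2'
  have hl2 : l ≠ 2 := by
    intro h2
    rw [h2] at hl2'
    have h3 : Odd ((2 * (w x i + t') + σ + ((oddP ⌊Y⌋₊ : ℕ) : ℤ)) ^ 2 + (4 * a - σ ^ 2)) := by
      rw [hM']
      refine ⟨2 * (w x i + t' + M') ^ 2 + 2 * (w x i + t' + M') * (σ + 1) + σ + 2 * a, ?_⟩
      ring
    rw [← Int.not_even_iff_odd] at h3
    exact h3 (even_iff_two_dvd.2 (by exact_mod_cast hl2'))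
  have hlY : l ≤ ⌊Y⌋₊ := by
    apply Nat.le_floor
    refine hl1'.trans ?_
    calc Y ^ (1 / 10 : ℝ) ≤ Y ^ (1 : ℝ) :=
          Real.rpow_le_rpow_of_exponent_le (by linarith) (by norm_num)
      _ = Y := Real.rpow_one Y
  have hlM : (l : ℤ) ∣ ((oddP ⌊Y⌋₊ : ℕ) : ℤ) := by exact_mod_cast dvd_oddP hl hl2 hlY
  have h5 : (l : ℤ) ∣ 4 * ((w x i + t') ^ 2 + σ * (w x i + t') + a) := by
    have e : 4 * ((w x i + t') ^ 2 + σ * (w x i + t') + a) =
        ((2 * (w x i + t') + σ + ((oddP ⌊Y⌋₊ : ℕ) : ℤ)) ^ 2 + (4 * a - σ ^ 2)) -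
          ((oddP ⌊Y⌋₊ : ℕ) : ℤ) * (2 * (2 * (w x i + t') + σ) + ((oddP ⌊Y⌋₊ : ℕ) : ℤ)) := by ring
    rw [e]
    exact dvd_sub hl2' (Dvd.dvd.mul_right hlM _)
  have hcop : IsCoprime (l : ℤ) 4 := by
    have h6 : Nat.Coprime l 4 := by
      have : Nat.Coprime l 2 := (Nat.coprime_primes hl Nat.prime_two).2 hl2
      have h7 : (4 : ℕ) = 2 ^ 2 := by norm_num
      rw [h7]
      exact this.pow_right 2
    exact_mod_cast Nat.isCoprime_iff_coprime.2 h6
  exact hcop.dvd_of_dvd_mul_left h5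

end Pool.Agent.N725.SQ
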