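import Pool.Agent.N725.SQ.Opp
import Pool.Agent.N725.SQ.Gen2

set_option autoImplicit false
set_option linter.unusedSectionVars false
set_option linter.unusedVariables false

/-! # The end points of Oppermann's intervals at the values of bilinear forms on arbitrary sets -/

namespace Pool.Agent.N725.SQ

open Finset Filter Matrix
open Pool.Agent.W147.PS (ff ff_compare ev_pow)

open scoped Classical

/-- **Oppermann's end points at vectors of residues with small exponential sums.** -/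
theorem resid2_opp (k : ℕ) (hk : 1 ≤ k) (δ : ℝ) (hδ : 0 < δ) (hδ1 : δ ≤ 1) :
    ∃ κ : ℝ, 0 < κ ∧ ∀ᶠ p : ℕ in atTop,
    ∀ [Fact p.Prime], ∀ (α : Type) (S : Finset α) (F : Fin k → α → ZMod p) (M : Fin k → ℤ) (H : Fin k → ℕ)
    (E₀ : ℝ) (_ : 0 ≤ E₀) (_ : S.Nonempty)
    (_ : ∀ h : Fin k → ZMod p, h ≠ 0 → ‖∑ x ∈ S, (ZMod.stdAddChar (∑ i, h i * F i x) : ℂ)‖ ≤ E₀)
    (_ : ∀ i, (p : ℝ) ^ δ ≤ H i ∧ H i ≤ p)
    (_ : E₀ * (p : ℝ) ^ δ ≤ (∏ i, (H i : ℝ)) * S.card / (p : ℝ) ^ k)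
    (J A : ℕ) (_ : (J : ℝ) ^ 2 ≤ κ * Real.log p) (_ : (A : ℝ) * J ≤ κ * ff p),
    (∏ i, (H i : ℝ)) * S.card / (p : ℝ) ^ k * (p : ℝ) ^ (-δ) ≤
      ((S.filter (fun x => (∀ i, M i < rep (M i) (H i) (F i x) ∧ rep (M i) (H i) (F i x) ≤ M i + H i ∧
          ((rep (M i) (H i) (F i x) : ℤ) : ZMod p) = F i x) ∧
        GoodOpp J A ((p : ℝ) ^ δ) (fun i => rep (M i) (H i) (F i x)))).card : ℝ) := by
  obtain ⟨c, hc, Y₀, hopp⟩ := opp_vec k hk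
  obtain ⟨η, hη⟩ : ∃ η : ℝ, η = δ / (4 * (k + 2)) := ⟨_, rfl⟩
  have hk2 : (0 : ℝ) < 4 * (k + 2) := by positivity
  have hη0 : 0 < η := by rw [hη]; positivity
  have hη1 : η ≤ 1 / 8 := by
    rw [hη, div_le_iff₀ hk2]
    have : (0 : ℝ) ≤ k := Nat.cast_nonneg k
    linarith
  have hηδ : η ≤ δ := by
    rw [hη]
    apply div_le_self hδ.le
    have : (0 : ℝ) ≤ k := Nat.cast_nonneg k
    linarith
  refine ⟨c * (η / 2 / 32), by positivity, ?_⟩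
  have hT : Tendsto (fun p : ℕ => (p : ℝ)) atTop atTop := tendsto_natCast_atTop_atTop
  have e3 : ∀ᶠ x : ℝ in atTop, max Y₀ 2 ≤ x ^ (η / 2) :=
    (tendsto_rpow_atTop (by positivity)).eventually_ge_atTop _
  filter_upwards [resid2_gen k δ hδ hδ1, hT.eventually e3,
    hT.eventually (ff_compare (η / 2) (by positivity) (by linarith)), eventually_ge_atTop 2]
    with p hgen hp3 hp4 hp5
  intro hpF α S F M H E₀ hE₀ hS hE hH hV J A hJ hA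
  have hp : p.Prime := hpF.out
  have hpr1 : (1 : ℝ) < p := by exact_mod_cast hp.one_lt
  have hpr0 : (0 : ℝ) < p := by linarith
  obtain ⟨y, hy⟩ : ∃ y : ℝ, y = (p : ℝ) ^ (η / 2) := ⟨_, rfl⟩
  have hhalf : (p : ℝ) ^ (η / 2) * (p : ℝ) ^ (η / 2) = (p : ℝ) ^ η := by
    rw [← Real.rpow_add hpr0]; congr 1; ring
  have hlogy : Real.log y = η / 2 * Real.log p := by rw [hy, Real.log_rpow hpr0]
  have hlogp : 0 ≤ Real.log p := Real.log_nonneg hpr1.le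
  have hffy : η / 2 / 32 * ff p ≤ ff y := by
    rw [hy]
    exact (hp4.2 ((p : ℝ) ^ (η / 2)) le_rfl (by
      calc (p : ℝ) ^ (η / 2) ≤ (p : ℝ) ^ (2 : ℝ) :=
            Real.rpow_le_rpow_of_exponent_le hpr1.le (by linarith)
        _ = (p : ℝ) ^ 2 := by norm_num)).1
  rw [← hy] at hp3 hhalf
  have hy2 : 2 ≤ y := (le_max_right _ _).trans hp3
  have hyY : Y₀ ≤ y := (le_max_left _ _).trans hp3
  refine hgen α S F M H E₀ hE₀ hS hE hH hV (GoodOpp J A ((p : ℝ) ^ δ)) ?_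
  intro t ht
  rw [← hη] at ht
  have hyZ : y ≤ (⌊(p : ℝ) ^ η⌋₊ : ℝ) := by
    have h1 : (p : ℝ) ^ η < (⌊(p : ℝ) ^ η⌋₊ : ℝ) + 1 := Nat.lt_floor_add_one _
    rw [← hhalf] at h1 ⊢
    nlinarith
  obtain ⟨x, hx, hx2⟩ := hopp y hyY J A (by
      rw [hlogy]
      refine hJ.trans ?_
      have h1 : 0 ≤ c * (η / 2) * Real.log p := by positivity
      nlinarith)
    (by
      refine hA.trans ?_
      calc c * (η / 2 / 32) * ff p = c * (η / 2 / 32 * ff p) := by ring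
        _ ≤ c * ff y := mul_le_mul_of_nonneg_left hffy hc.le)
    _ hyZ α t _ ht
  refine ⟨x, hx, ?_⟩
  intro i t' ht' σ h1 h2 a ha hsq
  obtain ⟨l, hl, hl1, hl2⟩ := hx2 i t' ht' σ h1 h2 a ha hsq
  refine ⟨l, hl, hl1.trans ?_, hl2⟩
  rw [hy, ← Real.rpow_mul hpr0.le]
  exact Real.rpow_le_rpow_of_exponent_le hpr1.le (by linarith)

/-- an end point is far from the primes -/
lemma iso_opp {A : ℕ} {x σ : ℤ} {y : ℝ} (hσ1 : -1 ≤ σ) (hσ2 : σ ≤ 1) (hy : (A : ℝ) + 3 ≤ y)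
    (hx : y < |(x : ℝ)|)
    (h : ∀ a : ℤ, |a| ≤ A → ¬ IsSquare (σ ^ 2 - 4 * a) →
      ∃ l : ℕ, l.Prime ∧ (l : ℝ) ≤ y ∧ (l : ℤ) ∣ x ^ 2 + σ * x + a) (q : ℕ) (hq : q.Prime) :
    (A : ℤ) < |(q : ℤ) - (x ^ 2 + σ * x)| := by
  by_contra hcon
  push Not at hcon
  obtain ⟨a, ha⟩ : ∃ a : ℤ, a = (q : ℤ) - (x ^ 2 + σ * x) := ⟨_, rfl⟩
  rw [← ha] at hcon
  have hqa : (q : ℤ) = x ^ 2 + σ * x + a := by rw [ha]; ring
  have hxA : (A : ℤ) + 4 ≤ |x| := by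
    have h1 : ((A : ℤ) : ℝ) + 3 < ((|x| : ℤ) : ℝ) := by push_cast; linarith
    have h2 : (A : ℤ) + 3 < |x| := by exact_mod_cast h1
    omega
  obtain ⟨ha1, ha2⟩ := abs_le.1 hcon
  have hA0 : (0 : ℤ) ≤ A := Int.natCast_nonneg _
  have hσx : |σ * x| ≤ |x| := by
    rw [abs_mul]
    have : |σ| ≤ 1 := abs_le.2 ⟨hσ1, hσ2⟩
    nlinarith [abs_nonneg x]
  have hσx1 := (abs_le.1 hσx).1
  have hx2 : x ^ 2 = |x| ^ 2 := (sq_abs x).symm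
  have hqx : |x| ≤ q := by
    rw [hqa, hx2]
    nlinarith
  by_cases hsq : IsSquare (σ ^ 2 - 4 * a)
  · obtain ⟨m, hm⟩ := hsq
    obtain ⟨X, hX⟩ : ∃ X : ℤ, X = |2 * x + σ| := ⟨_, rfl⟩
    obtain ⟨m', hm'⟩ : ∃ m' : ℤ, m' = |m| := ⟨_, rfl⟩
    have hm'0 : 0 ≤ m' := by rw [hm']; exact abs_nonneg m
    have hmm : m' * m' = m * m := by rw [hm', abs_mul_abs_self]
    have hXX : X * X = (2 * x + σ) * (2 * x + σ) := by rw [hX, abs_mul_abs_self]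
    have hσσ : σ ^ 2 ≤ 1 := by
      have hσcases : σ = -1 ∨ σ = 0 ∨ σ = 1 := by omega
      rcases hσcases with h | h | h <;> rw [h] <;> norm_num
    have hmle : m' ≤ 2 * A + 1 := by
      by_contra hc
      push Not at hc
      nlinarith
    have hXge : 2 * |x| - 1 ≤ X := by
      rw [hX]
      rcases le_total 0 x with h0 | h0
      · rw [abs_of_nonneg h0]
        have := le_abs_self (2 * x + σ)
        linarith
      · rw [abs_of_nonpos h0]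
        have := neg_le_abs (2 * x + σ)
        linarith
    have h4q : 4 * (q : ℤ) = (X - m') * (X + m') := by
      have e : (X - m') * (X + m') = X * X - m' * m' := by ring
      rw [e, hXX, hmm, ← hm, hqa]
      ring
    -- parity
    have hpar : (X - m') % 2 = 0 := by
      have h5 : (2 : ℤ) ∣ (X - m') * (X + m') := ⟨2 * q, by linarith⟩
      rcases Int.Prime.dvd_mul' Nat.prime_two (by exact_mod_cast h5) with h6 | h6 <;> omega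
    obtain ⟨u, hu⟩ : ∃ u : ℤ, X - m' = 2 * u := ⟨(X - m') / 2, by omega⟩
    obtain ⟨w, hw⟩ : ∃ w : ℤ, X + m' = 2 * w := ⟨(X + m') / 2, by omega⟩
    have huw : (q : ℤ) = u * w := by
      rw [hu, hw] at h4q
      linarith
    have hu2 : 2 ≤ u := by omega
    have hw2 : 2 ≤ w := by omega
    have hdvd : u.toNat ∣ q := by
      have : (u.toNat : ℤ) = u := Int.toNat_of_nonneg (by omega)
      have h7 : (u.toNat : ℤ) ∣ (q : ℤ) := by rw [this, huw]; exact dvd_mul_right _ _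
      exact_mod_cast h7
    rcases (Nat.dvd_prime hq).1 hdvd with h8 | h8
    · omega
    · have h9 : (u.toNat : ℤ) = u := Int.toNat_of_nonneg (by omega)
      rw [h8] at h9
      rw [h9] at huw
      nlinarith
  · obtain ⟨l, hl, hl1, hl2⟩ := h a hcon hsq
    rw [← hqa, Int.natCast_dvd_natCast, Nat.prime_dvd_prime_iff_eq hl hq] at hl2
    rw [hl2] at hl1
    have h5 : |(x : ℝ)| ≤ (q : ℝ) := by exact_mod_cast hqx
    linarith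

lemma ev_A (κ : ℝ) (ε : ℝ) (hε : 0 < ε) : ∀ᶠ Z : ℝ in atTop, κ * ff Z + 3 ≤ Z ^ ε := by
  have h5 : (fun Y : ℝ => (Real.log Y) ^ (2:ℝ)) =o[atTop] (fun Y : ℝ => Y ^ ε) :=
    isLittleO_log_rpow_rpow_atTop 2 hε
  filter_upwards [Pool.Agent.N542.PV.ev_ff, h5.def (show (0:ℝ) < 1 / (2 * (|κ| + 1)) by positivity),
    eventually_ge_atTop (1:ℝ), (tendsto_rpow_atTop hε).eventually_ge_atTop 6] with Z h1 h2 hZ1 hZ4
  obtain ⟨hL, hl0, hlL, hR0, hR⟩ := h1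
  have hZε : (0:ℝ) ≤ Z ^ ε := Real.rpow_nonneg (by linarith) _
  rw [Real.rpow_two, Real.norm_eq_abs, Real.norm_eq_abs, abs_of_nonneg (sq_nonneg _),
    abs_of_nonneg hZε, one_div, inv_mul_eq_div, le_div_iff₀ (by positivity)] at h2
  have h3 : κ * ff Z ≤ |κ| * (Real.log Z) ^ 2 := by
    calc κ * ff Z ≤ |κ| * ff Z := mul_le_mul_of_nonneg_right (le_abs_self _) hR0
      _ ≤ _ := mul_le_mul_of_nonneg_left hR (abs_nonneg _)
  nlinarith [abs_nonneg κ, sq_nonneg (Real.log Z)]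

/-- **The end points of Oppermann's intervals at bilinear forms on arbitrary sets.** -/
theorem bil_opp (k : ℕ) (hk : 1 ≤ k) (δ : ℝ) (hδ : 0 < δ) (hδ1 : δ ≤ 1) :
    ∃ κ : ℝ, 0 < κ ∧ ∀ᶠ p : ℕ in atTop, ∀ [Fact p.Prime], ∀ (d ρ : ℕ)
      (T : Fin k → Matrix (Fin d) (Fin d) (ZMod p)),
      (∀ h : Fin k → ZMod p, h ≠ 0 → ρ ≤ (∑ j, h j • T j).rank) →
      ∀ (𝒜 ℬ : Finset (Fin d → ZMod p)) (φ ψ : Fin k → (Fin d → ZMod p) → ZMod p)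
        (M : Fin k → ℤ) (L : Fin k → ℕ), (∀ i, (p : ℝ) ^ δ ≤ L i ∧ L i ≤ p) →
      (p : ℝ) ^ (2 * k + 2 * d + δ) ≤ (∏ i, (L i : ℝ)) ^ 2 * (𝒜.card * ℬ.card) * (p : ℝ) ^ ρ →
      ∀ (J A : ℕ), (J : ℝ) ^ 2 ≤ κ * Real.log p → (A : ℝ) * J ≤ κ * ff p →
      (∏ i, (L i : ℝ)) * (𝒜.card * ℬ.card) / (p : ℝ) ^ (k + δ) ≤
        (((𝒜 ×ˢ ℬ).filter (fun x => (∀ i, M i < rep (M i) (L i) (x.1 ⬝ᵥ (T i *ᵥ x.2) + φ i x.1 + ψ i x.2) ∧
          rep (M i) (L i) (x.1 ⬝ᵥ (T i *ᵥ x.2) + φ i x.1 + ψ i x.2) ≤ M i + L i ∧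
          ((rep (M i) (L i) (x.1 ⬝ᵥ (T i *ᵥ x.2) + φ i x.1 + ψ i x.2) : ℤ) : ZMod p) =
            x.1 ⬝ᵥ (T i *ᵥ x.2) + φ i x.1 + ψ i x.2) ∧
        ∀ i, ∀ t : ℕ, t < J →
          (p : ℝ) ^ δ < |((rep (M i) (L i) (x.1 ⬝ᵥ (T i *ᵥ x.2) + φ i x.1 + ψ i x.2) + t : ℤ) : ℝ)| →
          ∀ σ : ℤ, -1 ≤ σ → σ ≤ 1 → ∀ q : ℕ, q.Prime →
          (A : ℤ) < |(q : ℤ) - ((rep (M i) (L i) (x.1 ⬝ᵥ (T i *ᵥ x.2) + φ i x.1 + ψ i x.2) + t) ^ 2 +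
            σ * (rep (M i) (L i) (x.1 ⬝ᵥ (T i *ᵥ x.2) + φ i x.1 + ψ i x.2) + t))|)).card : ℝ) := by
  obtain ⟨κ, hκ, hev⟩ := resid2_opp k hk (δ / 2) (by positivity) (by linarith)
  refine ⟨κ, hκ, ?_⟩
  have hTd : Tendsto (fun p : ℕ => (p : ℝ)) atTop atTop := tendsto_natCast_atTop_atTop
  filter_upwards [hev, eventually_ge_atTop 2, hTd.eventually (ev_A κ (δ / 2) (by positivity))]
    with p hp1 hp3 hpA
  intro hpF d ρ T hT 𝒜 ℬ φ ψ M L hL hV J A hJ hA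
  have hp : p.Prime := hpF.out
  have hpr1 : (1 : ℝ) < p := by exact_mod_cast hp.one_lt
  have hpr0 : (0 : ℝ) < p := by linarith
  have hmono : ∀ a b : ℝ, a ≤ b → (p : ℝ) ^ a ≤ (p : ℝ) ^ b := fun a b hab =>
    Real.rpow_le_rpow_of_exponent_le hpr1.le hab
  have hPr0 : 0 ≤ ∏ i, (L i : ℝ) := Finset.prod_nonneg fun i _ => Nat.cast_nonneg _
  obtain ⟨N, hN⟩ : ∃ N : ℝ, N = (𝒜.card : ℝ) * ℬ.card := ⟨_, rfl⟩
  rw [← hN] at hV ⊢
  have hN0 : 0 ≤ N := by rw [hN]; positivity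
  have hNpos : 0 < N := by
    rcases hN0.lt_or_eq with h | h
    · exact h
    · rw [← h, mul_zero, zero_mul] at hV
      exact absurd hV (not_le.2 (Real.rpow_pos_of_pos hpr0 _))
  have hcard : ((𝒜 ×ˢ ℬ).card : ℝ) = N := by
    rw [Finset.card_product, hN]
    push_cast
    rfl
  have hne : (𝒜 ×ˢ ℬ).Nonempty := by
    rw [← Finset.card_pos]
    have : (0 : ℝ) < ((𝒜 ×ˢ ℬ).card : ℝ) := by rw [hcard]; exact hNpos
    exact_mod_cast this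
  -- the bound for the exponential sums
  obtain ⟨E₀, hE₀⟩ : ∃ E₀ : ℝ, E₀ = Real.sqrt (N * (p : ℝ) ^ (2 * d) / (p : ℝ) ^ ρ) := ⟨_, rfl⟩
  have hE₀0 : 0 ≤ E₀ := by rw [hE₀]; exact Real.sqrt_nonneg _
  have hE₀2 : E₀ ^ 2 = N * (p : ℝ) ^ (2 * d) / (p : ℝ) ^ ρ := by
    rw [hE₀, Real.sq_sqrt (by positivity)]
  have hsum : ∀ h : Fin k → ZMod p, h ≠ 0 → ‖∑ x ∈ 𝒜 ×ˢ ℬ,
      (ZMod.stdAddChar (∑ i, h i * (x.1 ⬝ᵥ (T i *ᵥ x.2) + φ i x.1 + ψ i x.2)) : ℂ)‖ ≤ E₀ := by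
    intro h hh
    have h1 := bil_est (∑ j, h j • T j) 𝒜 ℬ (fun a => ∑ j, h j * φ j a) (fun b => ∑ j, h j * ψ j b)
    have h2 : ∀ x : (Fin d → ZMod p) × (Fin d → ZMod p),
        ∑ i, h i * (x.1 ⬝ᵥ (T i *ᵥ x.2) + φ i x.1 + ψ i x.2) =
        x.1 ⬝ᵥ ((∑ j, h j • T j) *ᵥ x.2) + ∑ j, h j * φ j x.1 + ∑ j, h j * ψ j x.2 := by
      intro x
      rw [Matrix.sum_mulVec, dotProduct_sum, ← Finset.sum_add_distrib, ← Finset.sum_add_distrib]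
      refine Finset.sum_congr rfl fun i _ => ?_
      rw [Matrix.smul_mulVec, dotProduct_smul, smul_eq_mul]
      ring
    simp_rw [h2]
    have h3 : (p : ℝ) ^ ρ ≤ (p : ℝ) ^ (∑ j, h j • T j).rank :=
      pow_le_pow_right₀ hpr1.le (hT h hh)
    apply le_of_sq_le_sq _ hE₀0
    rw [hE₀2, le_div_iff₀ (pow_pos hpr0 ρ), hN]
    refine le_trans ?_ h1
    exact mul_le_mul_of_nonneg_left h3 (by positivity)
  have hmain := hp1 _ (𝒜 ×ˢ ℬ) (fun i x => x.1 ⬝ᵥ (T i *ᵥ x.2) + φ i x.1 + ψ i x.2) M L E₀ hE₀0 hne hsum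
    (fun i => ⟨(hmono _ _ (by linarith)).trans (hL i).1, (hL i).2⟩)
    (by
      rw [hcard]
      apply le_of_sq_le_sq _ (by positivity)
      rw [mul_pow, hE₀2, ← Real.rpow_natCast ((p : ℝ) ^ (δ / 2)), ← Real.rpow_mul hpr0.le, div_pow,
        le_div_iff₀ (by positivity), div_mul_eq_mul_div, div_mul_eq_mul_div,
        div_le_iff₀ (pow_pos hpr0 ρ)]
      have h1 : (p : ℝ) ^ (2 * k + 2 * d + δ) =
          (p : ℝ) ^ (2 * d) * (p : ℝ) ^ (δ / 2 * ((2 : ℕ) : ℝ)) * ((p : ℝ) ^ k) ^ 2 := by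
        rw [← pow_mul, ← Real.rpow_natCast, ← Real.rpow_natCast, ← Real.rpow_add hpr0,
          ← Real.rpow_add hpr0]
        congr 1
        push_cast
        ring
      rw [h1] at hV
      calc N * (p : ℝ) ^ (2 * d) * (p : ℝ) ^ (δ / 2 * ((2 : ℕ) : ℝ)) * ((p : ℝ) ^ k) ^ 2
          = N * ((p : ℝ) ^ (2 * d) * (p : ℝ) ^ (δ / 2 * ((2 : ℕ) : ℝ)) * ((p : ℝ) ^ k) ^ 2) := by ring
        _ ≤ N * ((∏ i, (L i : ℝ)) ^ 2 * N * (p : ℝ) ^ ρ) := mul_le_mul_of_nonneg_left hV hN0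
        _ = _ := by ring)
    J A hJ hA
  rw [hcard] at hmain
  have hlow : (∏ i, (L i : ℝ)) * N / (p : ℝ) ^ (k + δ) ≤
      (∏ i, (L i : ℝ)) * N / (p : ℝ) ^ k * (p : ℝ) ^ (-(δ / 2)) := by
    have h1 : (1 : ℝ) / (p : ℝ) ^ (k + δ) ≤ 1 / (p : ℝ) ^ k * (p : ℝ) ^ (-(δ / 2)) := by
      rw [one_div, ← Real.rpow_neg hpr0.le, one_div, ← Real.rpow_natCast, ← Real.rpow_neg hpr0.le,
        ← Real.rpow_add hpr0]
      exact hmono _ _ (by linarith)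
    calc (∏ i, (L i : ℝ)) * N / (p : ℝ) ^ (k + δ)
        = ((∏ i, (L i : ℝ)) * N) * (1 / (p : ℝ) ^ (k + δ)) := by ring
      _ ≤ ((∏ i, (L i : ℝ)) * N) * (1 / (p : ℝ) ^ k * (p : ℝ) ^ (-(δ / 2))) :=
          mul_le_mul_of_nonneg_left h1 (mul_nonneg hPr0 hN0)
      _ = _ := by ring
  refine (hlow.trans hmain).trans ?_
  rw [Nat.cast_le]
  apply Finset.card_le_card
  intro x hx
  rw [mem_filter] at hx ⊢
  refine ⟨hx.1, hx.2.1, fun i t ht hbig σ h1 h2 q hq => ?_⟩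
  have hJpos : (1 : ℝ) ≤ J := by
    have : 1 ≤ J := by omega
    exact_mod_cast this
  have hA1 : (A : ℝ) + 3 ≤ (p : ℝ) ^ (δ / 2) := by
    have h3 : (A : ℝ) ≤ A * J := by
      have : (0 : ℝ) ≤ A := Nat.cast_nonneg _
      nlinarith
    linarith
  exact iso_opp h1 h2 hA1 ((hmono (δ / 2) δ (by linarith)).trans_lt hbig)
    (fun a ha hsq => hx.2.2 i t ht σ h1 h2 a ha hsq) q hq

end Pool.Agent.N725.SQ
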